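import Mathlib
import Pool.Agent.H46FS.Mot

/-!
# The kernel of two points and the square root
-/

set_option autoImplicit false

open Complex Topology Filter Metric MeasureTheory Set

namespace Pool.Agent.H46TP

open Pool.Agent.H46MB (SQ)
open Pool.Agent.TH279.MZ (sqt sqt_sq)

/-- the normalized excess of the sum of the distances to `a` and `b` -/
noncomputable def ex (a b z : ℂ) : ℝ := (‖z - a‖ + ‖z - b‖) / ‖a - b‖ - 1

/-- the kernel integral -/
noncomputable def TT (E : Set ℂ) (a b : ℂ) : ENNReal :=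
  ∫⁻ z in E, ENNReal.ofReal (1 / (‖z - a‖ * ‖z - b‖))

/-- the kernel integral with the excess -/
noncomputable def UU2 (E : Set ℂ) (a b : ℂ) : ENNReal :=
  ∫⁻ z in E, ENNReal.ofReal (ex a b z / (‖z - a‖ * ‖z - b‖))

theorem ex_nonneg {a b : ℂ} (hab : a ≠ b) (z : ℂ) : 0 ≤ ex a b z := by
  have h : 0 < ‖a - b‖ := norm_pos_iff.mpr (sub_ne_zero.mpr hab)
  unfold ex
  rw [sub_nonneg, le_div_iff₀ h, one_mul]
  have h1 : a - b = (z - b) - (z - a) := by ring
  rw [h1]
  have := norm_sub_le (z - b) (z - a)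
  linarith

theorem meas_ex (a b : ℂ) : Measurable (ex a b) := by
  unfold ex
  fun_prop

theorem sq_root {E : Set ℂ} (hE : MeasurableSet E) (a : ℂ) {ψ : ℂ → ENNReal} (hψ : Measurable ψ)
    {G : ℂ → ENNReal} (hG : ∀ z w : ℂ, w ^ 2 = z - a → ψ w ≤ G z) :
    ∫⁻ w in SQ a E, ψ w ≤ ∫⁻ z in E, G z * ENNReal.ofReal (1 / (2 * ‖z - a‖)) := by
  have h := Pool.Agent.TH111.J1683.dual a hE hψ
  have h1 : SQ a E = (Pool.Agent.TH279.MZ.f a) ⁻¹' E := rfl
  rw [h1, h]
  apply lintegral_mono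
  intro z
  have hs : sqt (z - a) ^ 2 = z - a := sqt_sq _
  have h2 := hG z (sqt (z - a)) hs
  have h3 := hG z (-sqt (z - a)) (by rw [neg_sq, hs])
  calc (ψ (sqt (z - a)) + ψ (-sqt (z - a))) * ENNReal.ofReal (1 / (4 * ‖z - a‖)) ≤
      (G z + G z) * ENNReal.ofReal (1 / (4 * ‖z - a‖)) := by gcongr
    _ = G z * (2 * ENNReal.ofReal (1 / (4 * ‖z - a‖))) := by ring
    _ = G z * ENNReal.ofReal (1 / (2 * ‖z - a‖)) := by
        congr 1
        rw [show (2 : ENNReal) = ENNReal.ofReal 2 by norm_num, ← ENNReal.ofReal_mul (by norm_num)]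
        congr 1
        by_cases h0 : ‖z - a‖ = 0
        · rw [h0]; simp
        · field_simp
          norm_num

theorem sq_root_eq {E : Set ℂ} (hE : MeasurableSet E) (a : ℂ) {ψ : ℂ → ENNReal} (hψ : Measurable ψ)
    {G : ℂ → ENNReal} (hG : ∀ z w : ℂ, w ^ 2 = z - a → ψ w = G z) :
    ∫⁻ w in SQ a E, ψ w = ∫⁻ z in E, G z * ENNReal.ofReal (1 / (2 * ‖z - a‖)) := by
  have h := Pool.Agent.TH111.J1683.dual a hE hψ
  have h1 : SQ a E = (Pool.Agent.TH279.MZ.f a) ⁻¹' E := rfl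
  rw [h1, h]
  apply lintegral_congr
  intro z
  have hs : sqt (z - a) ^ 2 = z - a := sqt_sq _
  rw [hG z (sqt (z - a)) hs, hG z (-sqt (z - a)) (by rw [neg_sq, hs])]
  have : (2 : ENNReal) * ENNReal.ofReal (1 / (4 * ‖z - a‖)) = ENNReal.ofReal (1 / (2 * ‖z - a‖)) := by
    rw [show (2 : ENNReal) = ENNReal.ofReal 2 by norm_num, ← ENNReal.ofReal_mul (by norm_num)]
    congr 1
    by_cases h0 : ‖z - a‖ = 0
    · rw [h0]; simp
    · field_simp
      norm_num
  rw [← this]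
  ring

theorem TT_root {E : Set ℂ} (hE : MeasurableSet E) {a b s : ℂ} (hs : s ^ 2 = b - a) :
    TT (SQ a E) (-s) s = TT E a b / 2 := by
  unfold TT
  rw [sq_root_eq hE a (by fun_prop) (G := fun z => ENNReal.ofReal (1 / ‖z - b‖))]
  · rw [div_eq_mul_inv, mul_comm, ← lintegral_const_mul _ (by fun_prop)]
    apply lintegral_congr
    intro z
    rw [← ENNReal.ofReal_mul (by positivity),
      show (2 : ENNReal)⁻¹ = ENNReal.ofReal (1 / 2) by
        rw [one_div, ENNReal.ofReal_inv_of_pos (by norm_num)]; norm_num,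
      ← ENNReal.ofReal_mul (by norm_num)]
    congr 1
    rw [one_div_mul_one_div, one_div_mul_one_div]
    congr 1
    ring
  · intro z w hw
    congr 2
    rw [← norm_mul]
    congr 1
    linear_combination hw - hs

theorem meas_ex' (a b : ℂ) :
    Measurable (fun z => ENNReal.ofReal (ex a b z / (‖z - a‖ * ‖z - b‖))) :=
  ((meas_ex a b).div (by fun_prop)).ennreal_ofReal

theorem sqrt_ex {y : ℝ} (hy : 0 ≤ y) {X : ℝ} (hX0 : 0 ≤ X) (hX : X ^ 2 = 1 + y / 2) :
    X - 1 ≤ y / 4 := by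
  by_contra hcon
  push Not at hcon
  nlinarith

theorem UU2_root {E : Set ℂ} (hE : MeasurableSet E) {a b s : ℂ} (hs : s ^ 2 = b - a)
    (hab : a ≠ b) : UU2 (SQ a E) (-s) s ≤ UU2 E a b / 8 := by
  unfold UU2
  have hs0 : s ≠ 0 := by
    rintro rfl
    apply hab
    rw [zero_pow two_ne_zero] at hs
    exact (sub_eq_zero.mp hs.symm).symm
  have hsn : 0 < ‖s‖ := norm_pos_iff.mpr hs0
  refine (sq_root hE a (meas_ex' (-s) s)
    (G := fun z => ENNReal.ofReal (ex a b z / 4 / ‖z - b‖)) ?_).trans (le_of_eq ?_)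
  · intro z w hw
    apply ENNReal.ofReal_le_ofReal
    have h1 : ‖w - -s‖ * ‖w - s‖ = ‖z - b‖ := by
      rw [← norm_mul]
      congr 1
      linear_combination hw - hs
    rw [h1]
    apply div_le_div_of_nonneg_right _ (norm_nonneg _)
    set X : ℝ := (‖w - -s‖ + ‖w - s‖) / ‖-s - s‖ with hX
    have h2 : ‖-s - s‖ = 2 * ‖s‖ := by
      rw [show -s - s = -(2 * s) by ring, norm_neg, norm_mul]
      simp
    have hXe : ex (-s) s w = X - 1 := rfl
    rw [hXe]
    apply sqrt_ex (ex_nonneg hab z) (by positivity)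
    rw [hX, h2, div_pow, div_eq_iff (by positivity)]
    have h3 : (‖w - -s‖ + ‖w - s‖) ^ 2 = 2 * (‖z - a‖ + ‖b - a‖) + 2 * ‖z - b‖ := by
      have h4 : ‖w - -s‖ ^ 2 + ‖w - s‖ ^ 2 = 2 * (‖w‖ ^ 2 + ‖s‖ ^ 2) := by
        have := parallelogram_law_with_norm ℝ w s
        rw [sub_neg_eq_add]
        nlinarith [this]
      have h5 : ‖w‖ ^ 2 = ‖z - a‖ := by rw [← norm_pow, hw]
      have h6 : ‖s‖ ^ 2 = ‖b - a‖ := by rw [← norm_pow, hs]
      have h7 : (‖w - -s‖ + ‖w - s‖) ^ 2 =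
          ‖w - -s‖ ^ 2 + ‖w - s‖ ^ 2 + 2 * (‖w - -s‖ * ‖w - s‖) := by ring
      rw [h7, h4, h1, h5, h6]
    rw [h3]
    have h6 : ‖s‖ ^ 2 = ‖a - b‖ := by rw [← norm_pow, hs, norm_sub_rev]
    have h8 : 0 < ‖a - b‖ := norm_pos_iff.mpr (sub_ne_zero.mpr hab)
    rw [mul_pow, h6, norm_sub_rev b a]
    unfold ex
    field_simp
    ring
  · rw [div_eq_mul_inv, mul_comm (∫⁻ z in E, ENNReal.ofReal (ex a b z / (‖z - a‖ * ‖z - b‖))),
      ← lintegral_const_mul _ (meas_ex' a b)]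
    apply lintegral_congr
    intro z
    rw [← ENNReal.ofReal_mul (by
        have := ex_nonneg hab z
        positivity),
      show (8 : ENNReal)⁻¹ = ENNReal.ofReal (1 / 8) by
        rw [one_div, ENNReal.ofReal_inv_of_pos (by norm_num)]; norm_num,
      ← ENNReal.ofReal_mul (by norm_num)]
    congr 1
    rw [div_div, div_mul_div_comm, mul_one, div_mul_div_comm, one_mul]
    congr 1
    ring

end Pool.Agent.H46TP
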