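import Mathlib
import Pool.Agent.H46TP.Ker

/-!
# The relative speed of two holomorphically moving omitted values of a conformal motion
-/

set_option autoImplicit false

open Complex Topology Filter Metric MeasureTheory Set

namespace Pool.Agent.H46TP

open Pool.Agent.H713R2 Pool.Agent.H713R2.AR Pool.Agent.H69N.LA
open Pool.Agent.H713R3.ZA (StROOT)
open Pool.Agent.H713R3.ZA.GAIN (gg gg_of_ne isExt UU_eq)
open Pool.Agent.H46MB (SQ isCompact_SQ vol_SQ)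
open Pool.Agent.H46FS

variable {Ω : Set ℂ} {R₀ C ρ : ℝ} {H : ℂ → ℂ → ℂ}

theorem isCompact_compl (hm : MV ρ Ω H R₀ C) : IsCompact Ωᶜ := by
  apply Metric.isCompact_of_isClosed_isBounded hm.Ωo.isClosed_compl
  apply (isBounded_closedBall (x := (0 : ℂ)) (r := R₀)).subset
  intro z hz
  rw [mem_closedBall_zero_iff]
  by_contra hcon
  exact hz (hm.far z (not_le.mp hcon))

theorem TU_eq {E : Set ℂ} {a b : ℂ} (hab : a ≠ b) (hE : MeasurableSet E) :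
    TT E a b + UU2 E a b =
      ENNReal.ofReal (1 / ‖a - b‖) * (2 * volume (SQ a E) + 2 * volume (SQ b E)) := by
  have h8 : 0 < ‖a - b‖ := norm_pos_iff.mpr (sub_ne_zero.mpr hab)
  have h2 : (2 : ENNReal) = ENNReal.ofReal 2 := by norm_num
  unfold TT UU2
  rw [vol_SQ a hE, vol_SQ b hE, ← lintegral_const_mul _ (by fun_prop),
    ← lintegral_const_mul _ (by fun_prop),
    ← lintegral_add_left (f := fun z : ℂ => 2 * ENNReal.ofReal (1 / (2 * ‖z - a‖))) (by fun_prop),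
    ← lintegral_const_mul _ (by fun_prop),
    ← lintegral_add_left (f := fun z : ℂ => ENNReal.ofReal (1 / (‖z - a‖ * ‖z - b‖))) (by fun_prop)]
  apply lintegral_congr_ae
  have hae : ∀ᵐ w : ℂ ∂(volume.restrict E), w ≠ a ∧ w ≠ b := by
    apply ae_restrict_of_ae
    have h1 : ∀ᵐ w : ℂ, w ≠ a := by rw [ae_iff]; simp
    have h3 : ∀ᵐ w : ℂ, w ≠ b := by rw [ae_iff]; simp
    exact h1.and h3
  filter_upwards [hae] with z hz
  have ha : 0 < ‖z - a‖ := norm_pos_iff.mpr (sub_ne_zero.mpr hz.1)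
  have hb : 0 < ‖z - b‖ := norm_pos_iff.mpr (sub_ne_zero.mpr hz.2)
  have he := ex_nonneg hab z
  rw [h2, ← ENNReal.ofReal_mul (by norm_num), ← ENNReal.ofReal_mul (by norm_num),
    ← ENNReal.ofReal_add (by positivity) (by positivity),
    ← ENNReal.ofReal_add (by positivity) (by positivity), ← ENNReal.ofReal_mul (by positivity)]
  congr 1
  unfold ex
  field_simp
  ring

/-- The inequality at step `k`, with bounded motion. -/
theorem two_aux (k : ℕ) : ∀ {Ω : Set ℂ} {R₀ C ρ : ℝ} {H : ℂ → ℂ → ℂ} (_ : MV ρ Ω H R₀ C)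
    {ζ η : ℂ → ℂ} (_ : DifferentiableOn ℂ ζ (ball 0 ρ)) (_ : DifferentiableOn ℂ η (ball 0 ρ))
    {B : ℝ} (_ : ∀ t ∈ ball (0 : ℂ) ρ, ‖ζ t‖ ≤ B) (_ : ∀ t ∈ ball (0 : ℂ) ρ, ‖η t‖ ≤ B)
    (_ : ∀ t ∈ ball (0 : ℂ) ρ, ∀ z ∈ Ω, H t z ≠ ζ t)
    (_ : ∀ t ∈ ball (0 : ℂ) ρ, ∀ z ∈ Ω, H t z ≠ η t)
    (_ : ∀ t ∈ ball (0 : ℂ) ρ, ζ t ≠ η t),
    ENNReal.ofReal (Real.pi * ρ * ‖deriv ζ 0 - deriv η 0‖ / ‖ζ 0 - η 0‖) ≤
      TT Ωᶜ (ζ 0) (η 0) + UU2 Ωᶜ (ζ 0) (η 0) / 4 ^ k := by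
  induction k with
  | zero =>
    intro Ω R₀ C ρ H hm ζ η hζ hη B hB hB' hom hom' hne
    have h0m : (0 : ℂ) ∈ ball (0 : ℂ) ρ := mem_ball_self hm.ρ0
    have hab := hne 0 h0m
    have h8 : 0 < ‖ζ 0 - η 0‖ := norm_pos_iff.mpr (sub_ne_zero.mpr hab)
    have hEm : MeasurableSet Ωᶜ := hm.Ωo.isClosed_compl.measurableSet
    have hEc := isCompact_compl hm
    rw [pow_zero, div_one, TU_eq hab hEm]
    have h1 := speed hm hζ hom
    have h2 := speed hm hη hom'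
    have f1 : volume (SQ (ζ 0) Ωᶜ) ≠ ⊤ := (isCompact_SQ hEc).measure_lt_top.ne
    have f2 : volume (SQ (η 0) Ωᶜ) ≠ ⊤ := (isCompact_SQ hEc).measure_lt_top.ne
    set v : ℂ := deriv (fun t => tc (gg (H t)) 1) 0
    have h3 : Real.pi * ρ * ‖deriv ζ 0 - deriv η 0‖ ≤
        2 * (volume (SQ (ζ 0) Ωᶜ)).toReal + 2 * (volume (SQ (η 0) Ωᶜ)).toReal := by
      have h4 : ‖deriv ζ 0 - deriv η 0‖ ≤ ‖deriv ζ 0 - v‖ + ‖deriv η 0 - v‖ := by
        have := norm_sub_le (deriv ζ 0 - v) (deriv η 0 - v)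
        rwa [sub_sub_sub_cancel_right] at this
      have h5 : 0 ≤ Real.pi * ρ := by have := hm.ρ0; positivity
      nlinarith [mul_le_mul_of_nonneg_left h4 h5]
    have h6 : (2 * volume (SQ (ζ 0) Ωᶜ) + 2 * volume (SQ (η 0) Ωᶜ)) =
        ENNReal.ofReal (2 * (volume (SQ (ζ 0) Ωᶜ)).toReal + 2 * (volume (SQ (η 0) Ωᶜ)).toReal) := by
      rw [ENNReal.ofReal_add (by positivity) (by positivity), ENNReal.ofReal_mul (by norm_num),
        ENNReal.ofReal_mul (by norm_num), ENNReal.ofReal_toReal f1, ENNReal.ofReal_toReal f2]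
      norm_num
    rw [h6, ← ENNReal.ofReal_mul (by positivity)]
    apply ENNReal.ofReal_le_ofReal
    rw [div_eq_mul_inv, mul_comm, ← one_div]
    exact mul_le_mul_of_nonneg_left h3 (by positivity)
  | succ k ih =>
    intro Ω R₀ C ρ H hm ζ η hζ hη B hB hB' hom hom' hne
    have h0m : (0 : ℂ) ∈ ball (0 : ℂ) ρ := mem_ball_self hm.ρ0
    have hab := hne 0 h0m
    have h8 : 0 < ‖ζ 0 - η 0‖ := norm_pos_iff.mpr (sub_ne_zero.mpr hab)
    have hEm : MeasurableSet Ωᶜ := hm.Ωo.isClosed_compl.measurableSet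
    obtain ⟨h, R', C', hh, hhs⟩ := exists_root_mv hm hζ hB hom
    obtain ⟨u, hu⟩ : ∃ u : ℂ, u ^ 2 = η 0 - ζ 0 :=
      ⟨Pool.Agent.TH279.MZ.sqt _, Pool.Agent.TH279.MZ.sqt_sq _⟩
    obtain ⟨s, hsd, hs0, hss, -⟩ := sqrt_gen (V := ℂ) (U := ball (0 : ℂ) ρ)
      (F := fun t => η t - ζ t) isOpen_ball (convex_ball 0 ρ) (hη.sub hζ)
      (fun t ht => sub_ne_zero.mpr (hne t ht).symm) h0m hu
    have hss' : ∀ t ∈ ball (0 : ℂ) ρ, s t ^ 2 = η t - ζ t := hss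
    have hsne : ∀ t ∈ ball (0 : ℂ) ρ, s t ≠ 0 := by
      intro t ht h0
      have := hss' t ht
      rw [h0, zero_pow two_ne_zero] at this
      exact hne t ht (sub_eq_zero.mp this.symm).symm
    have hB0 : 0 ≤ B := (norm_nonneg _).trans (hB 0 h0m)
    have hsB : ∀ t ∈ ball (0 : ℂ) ρ, ‖s t‖ ≤ 2 * B + 1 := by
      intro t ht
      have h1 : ‖s t‖ ^ 2 ≤ 2 * B := by
        rw [← norm_pow, hss' t ht]
        have := norm_sub_le (η t) (ζ t)
        linarith [hB t ht, hB' t ht]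
      nlinarith [norm_nonneg (s t)]
    have key : ∀ t ∈ ball (0 : ℂ) ρ, ∀ w ∈ SQ (ζ 0) Ω, ∀ x : ℂ, x ^ 2 = η t - ζ t → h t w ≠ x := by
      intro t ht w hw x hx hcon
      have h1 := hhs t ht w hw
      rw [hcon, hx] at h1
      exact hom' t ht _ hw (sub_left_injective h1).symm
    have hc : (SQ (ζ 0) Ω)ᶜ = SQ (ζ 0) Ωᶜ := rfl
    have hmain := ih hh (ζ := fun t => -s t) (η := s) hsd.neg hsd (B := 2 * B + 1)
      (fun t ht => by rw [norm_neg]; exact hsB t ht) hsB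
      (fun t ht w hw => key t ht w hw _ (by rw [neg_sq]; exact hss' t ht))
      (fun t ht w hw => key t ht w hw _ (hss' t ht))
      (fun t ht hcon => hsne t ht (by
        have : (2 : ℂ) * s t = 0 := by linear_combination -hcon
        exact (mul_eq_zero.mp this).resolve_left two_ne_zero))
    rw [hc] at hmain
    rw [TT_root hEm (hss' 0 h0m)] at hmain
    have hU := UU2_root hEm (hss' 0 h0m) hab
    have hs0n := hsne 0 h0m
    have hsn : 0 < ‖s 0‖ := norm_pos_iff.mpr hs0n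
    have hs2 : ‖s 0‖ ^ 2 = ‖ζ 0 - η 0‖ := by rw [← norm_pow, hss' 0 h0m, norm_sub_rev]
    have hds : HasDerivAt s (deriv s 0) 0 :=
      (hsd.differentiableAt (isOpen_ball.mem_nhds h0m)).hasDerivAt
    have hdζ : HasDerivAt ζ (deriv ζ 0) 0 :=
      (hζ.differentiableAt (isOpen_ball.mem_nhds h0m)).hasDerivAt
    have hdη : HasDerivAt η (deriv η 0) 0 :=
      (hη.differentiableAt (isOpen_ball.mem_nhds h0m)).hasDerivAt
    have hd2 : 2 * s 0 * deriv s 0 = deriv η 0 - deriv ζ 0 := by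
      have e1 : HasDerivAt (fun t => s t ^ 2) (2 * s 0 * deriv s 0) 0 := by
        have e0 := hds.fun_pow 2
        simpa using e0
      have e2 : HasDerivAt (fun t => s t ^ 2) (deriv η 0 - deriv ζ 0) 0 := by
        refine (hdη.sub hdζ).congr_of_eventuallyEq ?_
        filter_upwards [isOpen_ball.mem_nhds h0m] with t ht using hss' t ht
      exact e1.unique e2
    have hL : Real.pi * ρ * ‖deriv (fun t => -s t) 0 - deriv s 0‖ / ‖-s 0 - s 0‖ =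
        (Real.pi * ρ * ‖deriv ζ 0 - deriv η 0‖ / ‖ζ 0 - η 0‖) / 2 := by
      have e1 : deriv (fun t => -s t) 0 = -deriv s 0 := hds.neg.deriv
      rw [e1, show -deriv s 0 - deriv s 0 = -(2 * deriv s 0) by ring,
        show -s 0 - s 0 = -(2 * s 0) by ring, norm_neg, norm_neg, norm_mul, norm_mul, ← hs2,
        norm_sub_rev, ← hd2, norm_mul, norm_mul]
      have e2 : ‖(2 : ℂ)‖ = 2 := by simp
      rw [e2]
      field_simp
    rw [hL] at hmain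
    have h4k : (4 : ENNReal) ^ k ≠ 0 := by positivity
    have h4k' : (4 : ENNReal) ^ k ≠ ⊤ := ENNReal.pow_ne_top (by norm_num)
    have h5 : ENNReal.ofReal ((Real.pi * ρ * ‖deriv ζ 0 - deriv η 0‖ / ‖ζ 0 - η 0‖) / 2) ≤
        TT Ωᶜ (ζ 0) (η 0) / 2 + UU2 Ωᶜ (ζ 0) (η 0) / 8 / 4 ^ k := by
      refine hmain.trans ?_
      gcongr
    have h6 : ENNReal.ofReal (Real.pi * ρ * ‖deriv ζ 0 - deriv η 0‖ / ‖ζ 0 - η 0‖) =
        2 * ENNReal.ofReal ((Real.pi * ρ * ‖deriv ζ 0 - deriv η 0‖ / ‖ζ 0 - η 0‖) / 2) := by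
      rw [show (2 : ENNReal) = ENNReal.ofReal 2 by norm_num, ← ENNReal.ofReal_mul (by norm_num)]
      congr 1
      ring
    rw [h6]
    refine (mul_le_mul_right h5 2).trans (le_of_eq ?_)
    rw [mul_add]
    congr 1
    · rw [ENNReal.mul_div_cancel (by norm_num) (by norm_num)]
    · rw [pow_succ, div_eq_mul_inv, div_eq_mul_inv, div_eq_mul_inv,
        ENNReal.mul_inv (Or.inl h4k) (Or.inl h4k'), show (8 : ENNReal) = 2 * 4 by norm_num,
        ENNReal.mul_inv (by norm_num) (by norm_num)]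
      have e3 : (2 : ENNReal) * 2⁻¹ = 1 := ENNReal.mul_inv_cancel (by norm_num) (by norm_num)
      calc 2 * (UU2 Ωᶜ (ζ 0) (η 0) * (2⁻¹ * 4⁻¹) * (4 ^ k)⁻¹) =
          (2 * 2⁻¹) * (UU2 Ωᶜ (ζ 0) (η 0) * ((4 ^ k)⁻¹ * 4⁻¹)) := by ring
        _ = _ := by rw [e3, one_mul]

/-- finiteness -/
theorem TU_ne_top {E : Set ℂ} (hE : IsCompact E) {a b : ℂ} (hab : a ≠ b) :
    TT E a b + UU2 E a b ≠ ⊤ := by
  rw [TU_eq hab hE.isClosed.measurableSet]
  have f1 : volume (SQ a E) ≠ ⊤ := (isCompact_SQ hE).measure_lt_top.ne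
  have f2 : volume (SQ b E) ≠ ⊤ := (isCompact_SQ hE).measure_lt_top.ne
  apply ENNReal.mul_ne_top ENNReal.ofReal_ne_top
  exact ENNReal.add_ne_top.mpr ⟨ENNReal.mul_ne_top (by norm_num) f1,
    ENNReal.mul_ne_top (by norm_num) f2⟩

theorem TT_ne_top {E : Set ℂ} (hE : IsCompact E) {a b : ℂ} (hab : a ≠ b) : TT E a b ≠ ⊤ :=
  (ENNReal.add_ne_top.mp (TU_ne_top hE hab)).1

/-- **The relative speed of two holomorphically moving omitted values.** -/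
theorem two (hm : MV ρ Ω H R₀ C) {ζ η : ℂ → ℂ} (hζ : DifferentiableOn ℂ ζ (ball 0 ρ))
    (hη : DifferentiableOn ℂ η (ball 0 ρ))
    (hom : ∀ t ∈ ball (0 : ℂ) ρ, ∀ z ∈ Ω, H t z ≠ ζ t)
    (hom' : ∀ t ∈ ball (0 : ℂ) ρ, ∀ z ∈ Ω, H t z ≠ η t)
    (hne : ∀ t ∈ ball (0 : ℂ) ρ, ζ t ≠ η t) :
    Real.pi * ρ * ‖deriv ζ 0 - deriv η 0‖ ≤ ‖ζ 0 - η 0‖ * (TT Ωᶜ (ζ 0) (η 0)).toReal := by
  have hρ := hm.ρ0
  have h0m : (0 : ℂ) ∈ ball (0 : ℂ) ρ := mem_ball_self hρ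
  have hab := hne 0 h0m
  have h8 : 0 < ‖ζ 0 - η 0‖ := norm_pos_iff.mpr (sub_ne_zero.mpr hab)
  have hEc := isCompact_compl hm
  have hT := TT_ne_top hEc hab
  have hU : UU2 Ωᶜ (ζ 0) (η 0) ≠ ⊤ := (ENNReal.add_ne_top.mp (TU_ne_top hEc hab)).2
  have key : ∀ ρ' ∈ Ioo 0 ρ, Real.pi * ρ' * ‖deriv ζ 0 - deriv η 0‖ ≤
      ‖ζ 0 - η 0‖ * (TT Ωᶜ (ζ 0) (η 0)).toReal := by
    intro ρ' hρ'
    obtain ⟨B₁, hB₁⟩ := (isCompact_closedBall (0 : ℂ) ρ').exists_bound_of_continuousOn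
      (hζ.continuousOn.mono (closedBall_subset_ball hρ'.2))
    obtain ⟨B₂, hB₂⟩ := (isCompact_closedBall (0 : ℂ) ρ').exists_bound_of_continuousOn
      (hη.continuousOn.mono (closedBall_subset_ball hρ'.2))
    have h1 : ∀ k : ℕ, ENNReal.ofReal (Real.pi * ρ' * ‖deriv ζ 0 - deriv η 0‖ / ‖ζ 0 - η 0‖) ≤
        TT Ωᶜ (ζ 0) (η 0) + UU2 Ωᶜ (ζ 0) (η 0) / 4 ^ k := by
      intro k
      have hsub : ball (0 : ℂ) ρ' ⊆ ball 0 ρ := ball_subset_ball hρ'.2.le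
      exact two_aux k (MV_mono hm hρ'.1 hρ'.2.le) (hζ.mono hsub) (hη.mono hsub) (B := max B₁ B₂)
        (fun t ht => (hB₁ t (ball_subset_closedBall ht)).trans (le_max_left _ _))
        (fun t ht => (hB₂ t (ball_subset_closedBall ht)).trans (le_max_right _ _))
        (fun t ht => hom t (hsub ht)) (fun t ht => hom' t (hsub ht)) (fun t ht => hne t (hsub ht))
    have h2 : Tendsto (fun k : ℕ => TT Ωᶜ (ζ 0) (η 0) + UU2 Ωᶜ (ζ 0) (η 0) / 4 ^ k) atTop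
        (𝓝 (TT Ωᶜ (ζ 0) (η 0) + 0)) := by
      apply Tendsto.const_add
      have h3 : Tendsto (fun k : ℕ => (4 : ENNReal) ^ k) atTop (𝓝 ⊤) :=
        ENNReal.tendsto_pow_atTop_nhds_top_iff.mpr (by norm_num)
      have h4 := ENNReal.Tendsto.const_div h3 (Or.inr hU)
      simpa using h4
    have h3 := ge_of_tendsto' h2 h1
    rw [add_zero] at h3
    have h4 := (ENNReal.ofReal_le_iff_le_toReal hT).mp h3
    rw [div_le_iff₀ h8] at h4
    linarith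
  have hc : Tendsto (fun r : ℝ => Real.pi * r * ‖deriv ζ 0 - deriv η 0‖) (𝓝[<] ρ)
      (𝓝 (Real.pi * ρ * ‖deriv ζ 0 - deriv η 0‖)) := by
    apply Tendsto.mono_left _ nhdsWithin_le_nhds
    exact (Continuous.tendsto (by fun_prop) ρ)
  apply le_of_tendsto hc
  filter_upwards [Ioo_mem_nhdsLT hρ] with r hr using key r hr

end Pool.Agent.H46TP
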