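import Mathlib
import Pool.Agent.H46FS.Fam
import Pool.Agent.H46TP.Two

/-!
# The relative speed of two holomorphically moving points of filled Julia sets
-/

set_option autoImplicit false

open Complex Topology Filter Metric MeasureTheory Set Polynomial

namespace Pool.Agent.H46TP

open Pool.Agent.H713R2 Pool.Agent.H713R2.AR Pool.Agent.H69N.LA
open Pool.Agent.H713R3.ZA (StROOT StINV StBSUM KJ QQ)
open Pool.Agent.H713R3.ZA.GAIN (gg gg_of_ne isExt UU_eq)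
open Pool.Agent.H46MB (SQ isCompact_SQ vol_SQ_toReal vol_SQ_le)
open Pool.Agent.H46FS

theorem TT_apply {E : Set ℂ} (hE : MeasurableSet E) (a b : ℂ) :
    TT E a b = (volume.withDensity fun z => ENNReal.ofReal (1 / (‖z - a‖ * ‖z - b‖))) E :=
  (withDensity_apply _ hE).symm

theorem TT_mono {E F : Set ℂ} (h : E ⊆ F) (a b : ℂ) : TT E a b ≤ TT F a b :=
  lintegral_mono_set h

/-- continuity along decreasing sequences of compact sets -/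
theorem TT_tendsto {L : ℕ → Set ℂ} (hc : ∀ N, IsCompact (L N)) (hanti : Antitone L) {a b : ℂ}
    (hab : a ≠ b) : Tendsto (fun N => TT (L N) a b) atTop (𝓝 (TT (⋂ N, L N) a b)) := by
  have hm : ∀ N, MeasurableSet (L N) := fun N => (hc N).isClosed.measurableSet
  rw [TT_apply (MeasurableSet.iInter hm)]
  simp only [TT_apply (hm _)]
  apply tendsto_measure_iInter_atTop (fun N => (hm N).nullMeasurableSet) hanti
  refine ⟨0, ?_⟩
  rw [← TT_apply (hm 0)]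
  exact TT_ne_top (hc 0) hab

section
variable {a : ℂ} {n : ℕ} {ρ A : ℝ} {f : ℂ → ℂ[X]} {R C₁ R₁ R₃ : ℝ} {ψ φ : ℂ × ℂ → ℂ}

/-- the sublevel sets -/
def LL (f : ℂ → ℂ[X]) (R₃ : ℝ) (N : ℕ) : Set ℂ := (WU f R₃ N)ᶜ

theorem mem_LL {N : ℕ} {z : ℂ} : z ∈ LL f R₃ N ↔ ‖(fv f 0)^[N] z‖ ≤ R₃ := by
  simp only [LL, WU, mem_compl_iff, mem_ofPred, not_lt]

theorem LL_anti (hf : FA a n ρ A f) (hb : BU a n ρ f R C₁ R₁ R₃ ψ φ) : Antitone (LL f R₃) := by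
  have h0 := mem_ball_self (x := (0 : ℂ)) hf.ρ0
  apply antitone_nat_of_succ_le
  intro N z hz
  rw [mem_LL] at hz ⊢
  by_contra hcon
  have e1 : R₃ < ‖(fv f 0)^[N] z‖ := not_le.mp hcon
  have e2 := hb.large_of_large h0 e1 1
  rw [Function.iterate_one, ← Function.iterate_succ_apply' (fv f 0)] at e2
  exact absurd hz (not_le.mpr e2)

theorem LL_zero : LL f R₃ 0 = closedBall (0 : ℂ) R₃ := by
  ext z
  rw [mem_LL]
  simp

theorem isCompact_LL (hf : FA a n ρ A f) (hb : BU a n ρ f R C₁ R₁ R₃ ψ φ) (N : ℕ) :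
    IsCompact (LL f R₃ N) :=
  (isCompact_closedBall (0 : ℂ) R₃).of_isClosed_subset ((isOpen_WU f R₃ N).isClosed_compl)
    (by rw [← LL_zero (f := f)]; exact LL_anti hf hb (Nat.zero_le N))

theorem iInter_LL (hf : FA a n ρ A f) (hb : BU a n ρ f R C₁ R₁ R₃ ψ φ) :
    (⋂ N, LL f R₃ N) = KJ (f 0) := by
  have h0 := mem_ball_self (x := (0 : ℂ)) hf.ρ0
  have h1 := hb.hR; have h2 := hb.hC; have h3 := hb.hR₁; have h4 := hb.hR₃
  ext z
  rw [mem_iInter]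
  constructor
  · intro hz hcon
    obtain ⟨k, hk⟩ := (hcon.eventually (eventually_gt_atTop R₃)).exists
    exact absurd (mem_LL.mp (hz k)) (not_le.mpr hk)
  · intro hz k
    rw [mem_LL]
    have := hb.lt_of_mem_KJ h0 hz k
    linarith

theorem KJ_omitted (hf : FA a n ρ A f) (hb : BU a n ρ f R C₁ R₁ R₃ ψ φ) {N : ℕ}
    {Φ : ℂ → ℂ → ℂ}
    (hr : ∀ t ∈ ball (0 : ℂ) ρ, ∀ z ∈ WU f R₃ N, (fv f t)^[N] (Φ t z) = ψ (t, PU f φ N z))
    {ζ : ℂ → ℂ} (hK : ∀ t ∈ ball (0 : ℂ) ρ, ζ t ∈ KJ (f t)) :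
    ∀ t ∈ ball (0 : ℂ) ρ, ∀ z ∈ WU f R₃ N, Φ t z ≠ ζ t := by
  intro t ht z hz hcon
  have h1 := hr t ht z hz
  rw [hcon] at h1
  have h2 := hb.lt_of_mem_KJ ht (hK t ht) N
  rw [h1] at h2
  have h3 := PU_norm hf hb hz
  have h4 := hb.ψc t ht _ h3
  have h5 := norm_sub_norm_le (PU f φ N z) (ψ (t, PU f φ N z))
  rw [norm_sub_rev] at h5
  have := hb.hR₁
  have := hb.hC
  linarith

/-- The relative speed of two points of the filled Julia sets. -/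
theorem two_KJ (hf : FA a n ρ A f) (hb : BU a n ρ f R C₁ R₁ R₃ ψ φ) {ζ η : ℂ → ℂ}
    (hζ : DifferentiableOn ℂ ζ (ball 0 ρ)) (hη : DifferentiableOn ℂ η (ball 0 ρ))
    (hK : ∀ t ∈ ball (0 : ℂ) ρ, ζ t ∈ KJ (f t)) (hK' : ∀ t ∈ ball (0 : ℂ) ρ, η t ∈ KJ (f t))
    (hne : ∀ t ∈ ball (0 : ℂ) ρ, ζ t ≠ η t) :
    Real.pi * ρ * ‖deriv ζ 0 - deriv η 0‖ ≤
      ‖ζ 0 - η 0‖ * (TT (KJ (f 0)) (ζ 0) (η 0)).toReal := by
  have h0 := mem_ball_self (x := (0 : ℂ)) hf.ρ0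
  have hab := hne 0 h0
  have hN : ∀ N : ℕ, Real.pi * ρ * ‖deriv ζ 0 - deriv η 0‖ ≤
      ‖ζ 0 - η 0‖ * (TT (LL f R₃ N) (ζ 0) (η 0)).toReal := by
    intro N
    obtain ⟨Φ, hm, hfar, hr⟩ := exists_mv' hf hb N
    exact two hm hζ hη (KJ_omitted hf hb hr hK) (KJ_omitted hf hb hr hK') hne
  have hlim := TT_tendsto (fun N => isCompact_LL hf hb N) (LL_anti hf hb) hab
  rw [iInter_LL hf hb] at hlim
  have hfin : TT (KJ (f 0)) (ζ 0) (η 0) ≠ ⊤ := by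
    have h5 := TT_ne_top (isCompact_LL hf hb 0) hab
    apply ne_top_of_le_ne_top h5
    apply TT_mono
    rw [← iInter_LL hf hb]
    exact iInter_subset _ 0
  exact ge_of_tendsto' (((ENNReal.tendsto_toReal hfin).comp hlim).const_mul _) hN

end

/-- the real valued integral -/
theorem TT_toReal {E : Set ℂ} (a b : ℂ) :
    (TT E a b).toReal = ∫ z in E, (‖z - a‖ * ‖z - b‖)⁻¹ := by
  unfold TT
  rw [integral_eq_lintegral_of_nonneg_ae]
  · simp only [one_div]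
  · exact Filter.Eventually.of_forall fun w => by positivity
  · apply Measurable.aestronglyMeasurable
    fun_prop

theorem exists_FA {n : ℕ} (hn : 1 ≤ n) {a : ℂ} (ha : a ≠ 0) {f : ℂ → ℂ[X]}
    (hdeg : ∀ t ∈ ball (0 : ℂ) 1, (f t).natDegree ≤ n + 1)
    (hlead : ∀ t ∈ ball (0 : ℂ) 1, (f t).coeff (n + 1) = a)
    (hsec : ∀ t ∈ ball (0 : ℂ) 1, (f t).coeff n = (f 0).coeff n)
    (hhol : ∀ j : ℕ, DifferentiableOn ℂ (fun t => (f t).coeff j) (ball 0 1))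
    (hnon : ∀ t ∈ ball (0 : ℂ) 1, ∀ c : ℂ, (derivative (f t)).eval c = 0 → c ∈ KJ (f t)) :
    ∀ ρ : ℝ, 0 < ρ → ρ < 1 → ∃ A : ℝ, FA a n ρ A f := by
  intro ρ hρ hρ1
  have hsub : ball (0 : ℂ) ρ ⊆ ball 0 1 := ball_subset_ball hρ1.le
  have h1 : ∀ j : ℕ, ∃ A : ℝ, 0 ≤ A ∧ ∀ t ∈ ball (0 : ℂ) ρ, ‖(f t).coeff j‖ ≤ A := by
    intro j
    obtain ⟨A, hA⟩ := (isCompact_closedBall (0 : ℂ) ρ).exists_bound_of_continuousOn
      (f := fun t => (f t).coeff j) ((hhol j).continuousOn.mono (closedBall_subset_ball hρ1))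
    exact ⟨max A 0, le_max_right _ _, fun t ht =>
      (hA t (ball_subset_closedBall ht)).trans (le_max_left _ _)⟩
  choose A hA0 hA using h1
  refine ⟨∑ i ∈ Finset.range (n + 2), A i, hρ, ha, hn, Finset.sum_nonneg fun i _ => hA0 i,
    fun t ht => hdeg t (hsub ht), fun t ht => hlead t (hsub ht), fun t ht => hsec t (hsub ht),
    fun j => (hhol j).mono hsub, ?_, fun t ht => hnon t (hsub ht)⟩
  intro t ht j
  have hB0 : 0 ≤ ∑ i ∈ Finset.range (n + 2), A i := Finset.sum_nonneg fun i _ => hA0 i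
  by_cases hj : j < n + 2
  · exact (hA j t ht).trans (Finset.single_le_sum (fun j _ => hA0 j) (Finset.mem_range.mpr hj))
  · rw [Polynomial.coeff_eq_zero_of_natDegree_lt
      (lt_of_le_of_lt (hdeg t (hsub ht)) (by omega)), norm_zero]
    exact hB0

/-- **The relative speed of two holomorphically moving points of the filled Julia sets.** -/
theorem family_two {n : ℕ} (hn : 1 ≤ n) {a : ℂ} (ha : a ≠ 0) {f : ℂ → ℂ[X]}
    (hdeg : ∀ t ∈ ball (0 : ℂ) 1, (f t).natDegree ≤ n + 1)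
    (hlead : ∀ t ∈ ball (0 : ℂ) 1, (f t).coeff (n + 1) = a)
    (hsec : ∀ t ∈ ball (0 : ℂ) 1, (f t).coeff n = (f 0).coeff n)
    (hhol : ∀ j : ℕ, DifferentiableOn ℂ (fun t => (f t).coeff j) (ball 0 1))
    (hnon : ∀ t ∈ ball (0 : ℂ) 1, ∀ c : ℂ, (derivative (f t)).eval c = 0 → c ∈ KJ (f t))
    {ζ η : ℂ → ℂ} (hζ : DifferentiableOn ℂ ζ (ball 0 1)) (hη : DifferentiableOn ℂ η (ball 0 1))
    (hK : ∀ t ∈ ball (0 : ℂ) 1, ζ t ∈ KJ (f t)) (hK' : ∀ t ∈ ball (0 : ℂ) 1, η t ∈ KJ (f t))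
    (hne : ∀ t ∈ ball (0 : ℂ) 1, ζ t ≠ η t) :
    Real.pi * ‖deriv ζ 0 - deriv η 0‖ ≤
      ‖ζ 0 - η 0‖ * ∫ z in KJ (f 0), (‖z - ζ 0‖ * ‖z - η 0‖)⁻¹ := by
  rw [← TT_toReal]
  have hFA := exists_FA hn ha hdeg hlead hsec hhol hnon
  have key : ∀ ρ ∈ Ioo (0 : ℝ) 1, Real.pi * ρ * ‖deriv ζ 0 - deriv η 0‖ ≤
      ‖ζ 0 - η 0‖ * (TT (KJ (f 0)) (ζ 0) (η 0)).toReal := by
    intro ρ hρ
    obtain ⟨A, hf⟩ := hFA ρ hρ.1 hρ.2
    obtain ⟨R, C₁, R₁, R₃, ψ, φ, hb⟩ := hf.exists_boett Pool.Agent.H713R3.ZA.bsum_holds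
      Pool.Agent.H713R3.ZA.inv_holds
    have hsub : ball (0 : ℂ) ρ ⊆ ball 0 1 := ball_subset_ball hρ.2.le
    exact two_KJ hf hb (hζ.mono hsub) (hη.mono hsub) (fun t ht => hK t (hsub ht))
      (fun t ht => hK' t (hsub ht)) (fun t ht => hne t (hsub ht))
  have hc : Tendsto (fun r : ℝ => Real.pi * r * ‖deriv ζ 0 - deriv η 0‖) (𝓝[<] 1)
      (𝓝 (Real.pi * 1 * ‖deriv ζ 0 - deriv η 0‖)) := by
    apply Tendsto.mono_left _ nhdsWithin_le_nhds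
    exact (Continuous.tendsto (by fun_prop) 1)
  rw [mul_one] at hc
  apply le_of_tendsto hc
  filter_upwards [Ioo_mem_nhdsLT (show (0 : ℝ) < 1 by norm_num)] with r hr using key r hr

end Pool.Agent.H46TP
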