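import Mathlib
import Pool.Agent.H46TP.Two

/-!
# The explicit bound for the kernel of two points
-/

set_option autoImplicit false

open Complex Topology Filter Metric MeasureTheory Set

namespace Pool.Agent.H46TP

open Pool.Agent.H46MB (SQ isCompact_SQ vol_SQ SQ_ball)

theorem piE : (NNReal.pi : ENNReal) = ENNReal.ofReal Real.pi := by
  rw [ENNReal.ofReal, Real.toNNReal_of_nonneg Real.pi_pos.le]
  rfl

/-- the integral of `1 / ‖z‖ ^ 2` over an annulus -/
theorem annulus {r R : ℝ} (hr : 0 < r) (hR : r ≤ R) :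
    ∫⁻ z in (ball (0 : ℂ) R \ ball 0 r), ENNReal.ofReal (1 / ‖z‖ ^ 2) =
      ENNReal.ofReal (2 * Real.pi * Real.log (R / r)) := by
  have hpi := Real.pi_pos
  have hm : MeasurableSet (ball (0 : ℂ) R \ ball 0 r) := measurableSet_ball.diff measurableSet_ball
  rw [← lintegral_indicator hm, ← Complex.lintegral_comp_polarCoord_symm]
  have h1 : ∀ p ∈ polarCoord.target, ENNReal.ofReal p.1 •
      (ball (0 : ℂ) R \ ball 0 r).indicator (fun z => ENNReal.ofReal (1 / ‖z‖ ^ 2))
        (Complex.polarCoord.symm p) =
      (Ico r R).indicator (fun x => ENNReal.ofReal (1 / x)) p.1 * 1 := by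
    rintro ⟨x, θ⟩ hp
    have hx : 0 < x := hp.1
    have hn : ‖Complex.polarCoord.symm (x, θ)‖ = x := by
      rw [Complex.norm_polarCoord_symm, abs_of_pos hx]
    by_cases hmem : x ∈ Ico r R
    · rw [indicator_of_mem hmem, indicator_of_mem, hn, smul_eq_mul, mul_one,
        ← ENNReal.ofReal_mul hx.le]
      · congr 1
        field_simp
      · refine ⟨?_, ?_⟩
        · rw [mem_ball_zero_iff, hn]; exact hmem.2
        · rw [mem_ball_zero_iff, hn, not_lt]; exact hmem.1
    · rw [indicator_of_notMem hmem, indicator_of_notMem, smul_zero, zero_mul]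
      rintro ⟨h1, h2⟩
      rw [mem_ball_zero_iff, hn] at h1 h2
      exact hmem ⟨not_lt.mp h2, h1⟩
  rw [setLIntegral_congr_fun polarCoord.open_target.measurableSet h1, polarCoord_target,
    Measure.volume_eq_prod, ← Measure.prod_restrict]
  rw [lintegral_prod_mul (by
      apply Measurable.aemeasurable
      apply Measurable.indicator (by fun_prop) measurableSet_Ico) aemeasurable_const]
  rw [lintegral_one, Measure.restrict_apply_univ, Real.volume_Ioo,
    setLIntegral_indicator measurableSet_Ico]
  have h2 : Ico r R ∩ Ioi 0 = Ico r R := inter_eq_left.mpr fun x hx => lt_of_lt_of_le hr hx.1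
  rw [h2]
  have h3 : ∫⁻ x in Ico r R, ENNReal.ofReal (1 / x) = ENNReal.ofReal (Real.log (R / r)) := by
    rw [← ofReal_integral_eq_lintegral_ofReal]
    · congr 1
      rw [integral_Ico_eq_integral_Ioc, ← intervalIntegral.integral_of_le hR,
        integral_one_div_of_pos hr (lt_of_lt_of_le hr hR)]
    · have : IntegrableOn (fun x : ℝ => 1 / x) (Icc r R) := by
        apply ContinuousOn.integrableOn_Icc
        apply ContinuousOn.div continuousOn_const continuousOn_id
        intro x hx
        exact (lt_of_lt_of_le hr hx.1).ne'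
      exact this.mono_set Ico_subset_Icc_self
    · rw [Filter.EventuallyLE, ae_restrict_iff' measurableSet_Ico]
      filter_upwards with x hx
      have : 0 < x := lt_of_lt_of_le hr hx.1
      positivity
  rw [h3, ← ENNReal.ofReal_mul (Real.log_nonneg ((one_le_div hr).mpr hR))]
  congr 1
  ring

/-- translated annulus -/
theorem annulus' (a : ℂ) {r R : ℝ} (hr : 0 < r) (hR : r ≤ R) :
    ∫⁻ z in (ball a R \ ball a r), ENNReal.ofReal (1 / ‖z - a‖ ^ 2) =
      ENNReal.ofReal (2 * Real.pi * Real.log (R / r)) := by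
  rw [← annulus hr hR]
  have hm : MeasurableSet (ball (0 : ℂ) R \ ball 0 r) := measurableSet_ball.diff measurableSet_ball
  have hm' : MeasurableSet (ball a R \ ball a r) := measurableSet_ball.diff measurableSet_ball
  rw [← lintegral_indicator hm, ← lintegral_indicator hm']
  have h := lintegral_sub_right_eq_self (μ := (volume : Measure ℂ))
    (fun z => (ball (0 : ℂ) R \ ball 0 r).indicator (fun z => ENNReal.ofReal (1 / ‖z‖ ^ 2)) z) a
  rw [← h]
  apply lintegral_congr
  intro z
  by_cases hz : z ∈ ball a R \ ball a r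
  · rw [indicator_of_mem hz, indicator_of_mem]
    simpa [mem_ball_iff_norm, dist_eq_norm] using hz
  · rw [indicator_of_notMem hz, indicator_of_notMem]
    intro h
    apply hz
    simpa [mem_ball_iff_norm, dist_eq_norm] using h

/-- the integral of `1 / ‖z - a‖ ^ 2` outside of a disc -/
theorem outer {E : Set ℂ} (hE : IsCompact E) (a : ℂ) {r : ℝ} (hr : 0 < r) :
    ∫⁻ z in E \ ball a r, ENNReal.ofReal (1 / ‖z - a‖ ^ 2) ≤
      ENNReal.ofReal (Real.pi * Real.log (1 + (volume E).toReal / (Real.pi * r ^ 2))) := by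
  have hpi := Real.pi_pos
  set V : ℝ := (volume E).toReal with hV
  have hV0 : 0 ≤ V := ENNReal.toReal_nonneg
  have hEf : volume E ≠ ⊤ := hE.measure_lt_top.ne
  have hEV : volume E = ENNReal.ofReal V := (ENNReal.ofReal_toReal hEf).symm
  set R : ℝ := √(r ^ 2 + V / Real.pi) with hR
  have hR2 : R ^ 2 = r ^ 2 + V / Real.pi := Real.sq_sqrt (by positivity)
  have hR0 : 0 < R := Real.sqrt_pos.mpr (by positivity)
  have hrR : r ≤ R := by
    apply Real.le_sqrt_of_sq_le
    have : 0 ≤ V / Real.pi := by positivity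
    linarith
  set F : Set ℂ := E \ ball a r with hF
  set B : Set ℂ := ball a R \ ball a r with hB
  have hFm : MeasurableSet F := hE.isClosed.measurableSet.diff measurableSet_ball
  have hBm : MeasurableSet B := measurableSet_ball.diff measurableSet_ball
  have hFV : volume F ≤ ENNReal.ofReal V := by rw [← hEV]; exact measure_mono sdiff_subset
  have hBV : volume B = ENNReal.ofReal V := by
    rw [hB, measure_sdiff (ball_subset_ball hrR) measurableSet_ball.nullMeasurableSet
      measure_ball_lt_top.ne, Complex.volume_ball, Complex.volume_ball, piE,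
      ← ENNReal.ofReal_pow hR0.le, ← ENNReal.ofReal_pow hr.le, ← ENNReal.ofReal_mul (by positivity),
      ← ENNReal.ofReal_mul (by positivity), ← ENNReal.ofReal_sub _ (by positivity), hR2]
    congr 1
    field_simp
    ring
  set k : ℂ → ENNReal := fun z => ENNReal.ofReal (1 / ‖z - a‖ ^ 2) with hk
  have hdiff : volume (F \ B) ≤ volume (B \ F) := by
    have h1 := measure_inter_add_sdiff (μ := (volume : Measure ℂ)) F hBm
    have h2 := measure_inter_add_sdiff (μ := (volume : Measure ℂ)) B hFm
    rw [hBV, inter_comm] at h2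
    have h3 : volume (F ∩ B) ≠ ⊤ := by
      apply ne_top_of_le_ne_top _ ((measure_mono inter_subset_left).trans hFV)
      exact ENNReal.ofReal_ne_top
    rw [← h2, ← h1] at hFV
    exact (ENNReal.add_le_add_iff_left h3).mp hFV
  have h1 : ∫⁻ w in F \ B, k w ≤ ENNReal.ofReal (1 / R ^ 2) * volume (F \ B) := by
    rw [← setLIntegral_const]
    apply setLIntegral_mono' (hFm.diff hBm)
    rintro w ⟨⟨_, hw1⟩, hw⟩
    have hw2 : R ≤ ‖w - a‖ := by
      by_contra hcon
      push Not at hcon
      exact hw ⟨by rwa [mem_ball_iff_norm], hw1⟩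
    exact ENNReal.ofReal_le_ofReal (one_div_le_one_div_of_le (by positivity) (by gcongr))
  have h2 : ENNReal.ofReal (1 / R ^ 2) * volume (B \ F) ≤ ∫⁻ w in B \ F, k w := by
    rw [← setLIntegral_const]
    apply setLIntegral_mono' (hBm.diff hFm)
    rintro w ⟨⟨hw1, hw2⟩, _⟩
    rw [mem_ball_iff_norm] at hw1 hw2
    have hw3 : 0 < ‖w - a‖ := by linarith
    exact ENNReal.ofReal_le_ofReal (one_div_le_one_div_of_le (by positivity) (by gcongr))
  have h3 : ∫⁻ w in F, k w ≤ ∫⁻ w in B, k w := by
    rw [← lintegral_inter_add_sdiff k F hBm, ← lintegral_inter_add_sdiff k B hFm, inter_comm B F]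
    refine add_le_add_right (h1.trans (le_trans ?_ h2)) _
    gcongr
  refine h3.trans (le_of_eq ?_)
  rw [annulus' a hr hrR]
  congr 1
  have h4 : Real.log (1 + V / (Real.pi * r ^ 2)) = 2 * Real.log (R / r) := by
    rw [show (2 : ℝ) * Real.log (R / r) = Real.log ((R / r) ^ 2) by
      rw [Real.log_pow]; norm_num, div_pow, hR2]
    congr 1
    field_simp
  rw [h4]
  ring

/-- the integral of `1 / ‖z - a‖` over a disc -/
theorem inner (a : ℂ) {r : ℝ} (hr : 0 < r) :
    ∫⁻ z in closedBall a r, ENNReal.ofReal (1 / (r * ‖z - a‖)) = ENNReal.ofReal (2 * Real.pi) := by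
  have hpi := Real.pi_pos
  have h1 : ∀ z : ℂ, ENNReal.ofReal (1 / (r * ‖z - a‖)) =
      ENNReal.ofReal (2 / r) * ENNReal.ofReal (1 / (2 * ‖z - a‖)) := by
    intro z
    rw [← ENNReal.ofReal_mul (by positivity)]
    congr 1
    by_cases h0 : ‖z - a‖ = 0
    · rw [h0]; simp
    · field_simp
  simp_rw [h1]
  rw [lintegral_const_mul _ (by fun_prop), ← vol_SQ a measurableSet_closedBall, SQ_ball a hr.le,
    Complex.volume_closedBall, piE, ← ENNReal.ofReal_pow (Real.sqrt_nonneg _), Real.sq_sqrt hr.le,
    ← ENNReal.ofReal_mul hr.le, ← ENNReal.ofReal_mul (by positivity)]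
  congr 1
  field_simp

/-- **The explicit bound for the kernel of two points.** -/
theorem TT_le {E : Set ℂ} (hE : IsCompact E) {a b : ℂ} (hab : a ≠ b) :
    TT E a b ≤ ENNReal.ofReal (Real.pi *
      (4 + Real.log (1 + 4 * (volume E).toReal / (Real.pi * ‖a - b‖ ^ 2)))) := by
  have hpi := Real.pi_pos
  set δ : ℝ := ‖a - b‖ with hδ
  have hδ0 : 0 < δ := norm_pos_iff.mpr (sub_ne_zero.mpr hab)
  set r : ℝ := δ / 2 with hr
  have hr0 : 0 < r := by positivity
  set V : ℝ := (volume E).toReal with hV
  have hV0 : 0 ≤ V := ENNReal.toReal_nonneg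
  have hEm : MeasurableSet E := hE.isClosed.measurableSet
  set ka : ℂ → ENNReal := fun z => ENNReal.ofReal (1 / (r * ‖z - a‖)) with hka
  set kb : ℂ → ENNReal := fun z => ENNReal.ofReal (1 / (r * ‖z - b‖)) with hkb
  set la : ℂ → ENNReal := fun z => ENNReal.ofReal (1 / ‖z - a‖ ^ 2) with hla
  set lb : ℂ → ENNReal := fun z => ENNReal.ofReal (1 / ‖z - b‖ ^ 2) with hlb
  have hpt : ∀ z ∈ E, ENNReal.ofReal (1 / (‖z - a‖ * ‖z - b‖)) ≤
      (closedBall a r).indicator ka z + (closedBall b r).indicator kb z +
        (2⁻¹ * (E \ ball a r).indicator la z + 2⁻¹ * (E \ ball b r).indicator lb z) := by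
    intro z hz
    have htri : δ ≤ ‖z - a‖ + ‖z - b‖ := by
      have h1 : a - b = (z - b) - (z - a) := by ring
      rw [hδ, h1]
      have := norm_sub_le (z - b) (z - a)
      linarith
    by_cases ha : ‖z - a‖ < r
    · have h1 : z ∈ closedBall a r := by rw [mem_closedBall_iff_norm]; exact ha.le
      rw [indicator_of_mem h1]
      refine le_trans ?_ (le_trans le_self_add le_self_add)
      rw [hka]
      apply ENNReal.ofReal_le_ofReal
      have h2 : r ≤ ‖z - b‖ := by linarith
      rcases (norm_nonneg (z - a)).eq_or_lt with h3 | h3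
      · rw [← h3]; simp
      · apply one_div_le_one_div_of_le (by positivity)
        nlinarith
    by_cases hb : ‖z - b‖ < r
    · have h1 : z ∈ closedBall b r := by rw [mem_closedBall_iff_norm]; exact hb.le
      rw [indicator_of_mem h1]
      refine le_trans ?_ (le_trans le_add_self le_self_add)
      rw [hkb]
      apply ENNReal.ofReal_le_ofReal
      have h2 : r ≤ ‖z - a‖ := by linarith
      rcases (norm_nonneg (z - b)).eq_or_lt with h3 | h3
      · rw [← h3]; simp
      · apply one_div_le_one_div_of_le (by positivity)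
        nlinarith
    push Not at ha hb
    have h1 : z ∈ E \ ball a r := ⟨hz, by rw [mem_ball_iff_norm]; exact not_lt.mpr ha⟩
    have h2 : z ∈ E \ ball b r := ⟨hz, by rw [mem_ball_iff_norm]; exact not_lt.mpr hb⟩
    rw [indicator_of_mem h1, indicator_of_mem h2]
    refine le_trans ?_ le_add_self
    rw [hla, hlb, show (2 : ENNReal)⁻¹ = ENNReal.ofReal (1 / 2) by
        rw [one_div, ENNReal.ofReal_inv_of_pos (by norm_num)]; norm_num,
      ← ENNReal.ofReal_mul (by norm_num), ← ENNReal.ofReal_mul (by norm_num),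
      ← ENNReal.ofReal_add (by positivity) (by positivity)]
    apply ENNReal.ofReal_le_ofReal
    have h3 : 0 < ‖z - a‖ := by linarith
    have h4 : 0 < ‖z - b‖ := by linarith
    set x := ‖z - a‖
    set y := ‖z - b‖
    have h5 : 1 / (x * y) = (1 / x) * (1 / y) := by rw [one_div_mul_one_div]
    have h6 : 1 / x ^ 2 = (1 / x) ^ 2 := by rw [one_div_pow]
    have h7 : 1 / y ^ 2 = (1 / y) ^ 2 := by rw [one_div_pow]
    rw [h5, h6, h7]
    nlinarith [sq_nonneg (1 / x - 1 / y)]
  have hba : MeasurableSet (closedBall a r) := measurableSet_closedBall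
  have hbb : MeasurableSet (closedBall b r) := measurableSet_closedBall
  have hoa : MeasurableSet (E \ ball a r) := hEm.diff measurableSet_ball
  have hob : MeasurableSet (E \ ball b r) := hEm.diff measurableSet_ball
  have m1 : Measurable ((closedBall a r).indicator ka) := Measurable.indicator (by fun_prop) hba
  have m2 : Measurable ((closedBall b r).indicator kb) := Measurable.indicator (by fun_prop) hbb
  have m3 : Measurable ((E \ ball a r).indicator la) := Measurable.indicator (by fun_prop) hoa
  have m4 : Measurable ((E \ ball b r).indicator lb) := Measurable.indicator (by fun_prop) hob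
  have h1 : TT E a b ≤ ∫⁻ z, ((closedBall a r).indicator ka z + (closedBall b r).indicator kb z +
        (2⁻¹ * (E \ ball a r).indicator la z + 2⁻¹ * (E \ ball b r).indicator lb z)) :=
    (setLIntegral_mono' hEm hpt).trans (setLIntegral_le_lintegral _ _)
  have h2 : ∫⁻ z, ((closedBall a r).indicator ka z + (closedBall b r).indicator kb z +
        (2⁻¹ * (E \ ball a r).indicator la z + 2⁻¹ * (E \ ball b r).indicator lb z)) =
      ENNReal.ofReal (2 * Real.pi) + ENNReal.ofReal (2 * Real.pi) +
        (2⁻¹ * (∫⁻ z in E \ ball a r, la z) + 2⁻¹ * ∫⁻ z in E \ ball b r, lb z) := by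
    rw [lintegral_add_left (f := fun z => (closedBall a r).indicator ka z +
        (closedBall b r).indicator kb z) (m1.add m2), lintegral_add_left m1,
      lintegral_add_left (f := fun z => 2⁻¹ * (E \ ball a r).indicator la z) (m3.const_mul _),
      lintegral_const_mul _ m3, lintegral_const_mul _ m4,
      lintegral_indicator hba, lintegral_indicator hbb, lintegral_indicator hoa,
      lintegral_indicator hob, hka, hkb, inner a hr0, inner b hr0]
  rw [h2] at h1
  refine h1.trans ?_
  have h3 := outer hE a hr0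
  have h4 := outer hE b hr0
  set L : ℝ := Real.log (1 + V / (Real.pi * r ^ 2)) with hL
  have hL0 : 0 ≤ L := Real.log_nonneg (by
    have : 0 ≤ V / (Real.pi * r ^ 2) := by positivity
    linarith)
  have hLe : Real.log (1 + 4 * V / (Real.pi * δ ^ 2)) = L := by
    rw [hL, hr]
    congr 2
    field_simp
    ring
  rw [hLe]
  calc ENNReal.ofReal (2 * Real.pi) + ENNReal.ofReal (2 * Real.pi) +
        (2⁻¹ * (∫⁻ z in E \ ball a r, la z) + 2⁻¹ * ∫⁻ z in E \ ball b r, lb z) ≤
      ENNReal.ofReal (2 * Real.pi) + ENNReal.ofReal (2 * Real.pi) +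
        (2⁻¹ * ENNReal.ofReal (Real.pi * L) + 2⁻¹ * ENNReal.ofReal (Real.pi * L)) := by
        gcongr
    _ = _ := by
      rw [show (2 : ENNReal)⁻¹ = ENNReal.ofReal (1 / 2) by
          rw [one_div, ENNReal.ofReal_inv_of_pos (by norm_num)]; norm_num,
        ← ENNReal.ofReal_mul (by norm_num), ← ENNReal.ofReal_add (by positivity) (by positivity),
        ← ENNReal.ofReal_add (by positivity) (by positivity),
        ← ENNReal.ofReal_add (by positivity) (by positivity)]
      congr 1
      ring

end Pool.Agent.H46TP
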