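import Mathlib
import Pool.Agent.H46TP.Log
import Pool.Agent.H46TP.Fam2

/-!
# The upper logarithmic density of a compact set at a point
-/

set_option autoImplicit false

open Complex Topology Filter Metric MeasureTheory Set

namespace Pool.Agent.H46TP

/-- The share of `E` in the annulus `ε ≤ |z - a| < 1`, for the measure `|z - a| ^ (-2) dA`, whose
mass on the annulus is `2 π log (1 / ε)`. -/
noncomputable def dens (E : Set ℂ) (a : ℂ) (ε : ℝ) : ℝ :=
  (∫ z in E ∩ (ball a 1 \ ball a ε), (‖z - a‖ ^ 2)⁻¹) / (2 * Real.pi * Real.log (1 / ε))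

/-- The upper logarithmic density of `E` at `a`. -/
noncomputable def upDens (E : Set ℂ) (a : ℂ) : ℝ := limsup (dens E a) (𝓝[>] 0)

theorem ann_eq {E : Set ℂ} (a : ℂ) (ε : ℝ) :
    ∫ z in E ∩ (ball a 1 \ ball a ε), (‖z - a‖ ^ 2)⁻¹ =
      (∫⁻ z in E ∩ (ball a 1 \ ball a ε), ENNReal.ofReal (1 / ‖z - a‖ ^ 2)).toReal := by
  rw [integral_eq_lintegral_of_nonneg_ae]
  · simp_rw [one_div]
  · filter_upwards with z
    positivity
  · apply Measurable.aestronglyMeasurable
    fun_prop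

theorem ann_le {E : Set ℂ} (a : ℂ) {ε : ℝ} (hε : 0 < ε) (hε1 : ε ≤ 1) :
    ∫⁻ z in E ∩ (ball a 1 \ ball a ε), ENNReal.ofReal (1 / ‖z - a‖ ^ 2) ≤
      ENNReal.ofReal (2 * Real.pi * Real.log (1 / ε)) := by
  rw [← annulus' a hε hε1]
  exact lintegral_mono_set inter_subset_right

theorem dens_nonneg (E : Set ℂ) (a : ℂ) {ε : ℝ} (hε : 0 < ε) (hε1 : ε < 1) : 0 ≤ dens E a ε := by
  have hpi := Real.pi_pos
  unfold dens
  apply div_nonneg
  · apply integral_nonneg
    intro z
    positivity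
  · have : 0 ≤ Real.log (1 / ε) := Real.log_nonneg (by rw [le_div_iff₀ hε]; linarith)
    positivity

theorem dens_le_one (E : Set ℂ) (a : ℂ) {ε : ℝ} (hε : 0 < ε) (hε1 : ε < 1) : dens E a ε ≤ 1 := by
  have hpi := Real.pi_pos
  have hL : 0 < Real.log (1 / ε) := Real.log_pos (by rw [lt_div_iff₀ hε]; linarith)
  unfold dens
  rw [div_le_one (by positivity), ann_eq]
  have h1 := ENNReal.toReal_mono ENNReal.ofReal_ne_top (ann_le (E := E) a hε hε1.le)
  rwa [ENNReal.toReal_ofReal (by positivity)] at h1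

theorem ev01 : ∀ᶠ ε : ℝ in 𝓝[>] 0, 0 < ε ∧ ε < 1 := by
  have := Ioo_mem_nhdsGT (show (0 : ℝ) < 1 by norm_num)
  filter_upwards [this] with ε hε using hε

theorem dens_bdd (E : Set ℂ) (a : ℂ) : IsBoundedUnder (· ≤ ·) (𝓝[>] (0 : ℝ)) (dens E a) :=
  ⟨1, by
    rw [eventually_map]
    filter_upwards [ev01] with ε hε using dens_le_one E a hε.1 hε.2⟩

theorem dens_cobdd (E : Set ℂ) (a : ℂ) : IsBoundedUnder (· ≥ ·) (𝓝[>] (0 : ℝ)) (dens E a) :=
  ⟨0, by
    rw [eventually_map]
    filter_upwards [ev01] with ε hε using dens_nonneg E a hε.1 hε.2⟩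

theorem upDens_nonneg (E : Set ℂ) (a : ℂ) : 0 ≤ upDens E a := by
  apply le_limsup_of_frequently_le _ (dens_bdd E a)
  apply Eventually.frequently
  filter_upwards [ev01] with ε hε using dens_nonneg E a hε.1 hε.2

theorem upDens_le_one (E : Set ℂ) (a : ℂ) : upDens E a ≤ 1 := by
  apply limsup_le_of_le (dens_cobdd E a).isCoboundedUnder_le
  filter_upwards [ev01] with ε hε using dens_le_one E a hε.1 hε.2

/-- **The kernel of two points against the logarithmic density.** -/
theorem TT_dens {E : Set ℂ} (hE : IsCompact E) (a : ℂ) {s θ : ℝ} (hs : 1 < s)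
    (hθ : upDens E a < θ) : ∃ C : ℝ, 0 ≤ C ∧ ∀ᶠ b in 𝓝 a, b ≠ a →
      (TT E a b).toReal ≤ s * (2 * Real.pi * θ) * Real.log (1 / ‖b - a‖) + C := by
  have hpi := Real.pi_pos
  have hθ0 : 0 < θ := (upDens_nonneg E a).trans_lt hθ
  set A : ℝ := s / (s - 1) with hA
  have hs1 : 0 < s - 1 := by linarith
  have hA1 : 1 < A := by rw [hA, one_lt_div hs1]; linarith
  have hA0 : 0 < A := by linarith
  have hEm : MeasurableSet E := hE.isClosed.measurableSet
  set V : ℝ := (volume E).toReal with hV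
  have hV0 : 0 ≤ V := ENNReal.toReal_nonneg
  have hEf : volume E ≠ ⊤ := hE.measure_lt_top.ne
  have hEV : volume E = ENNReal.ofReal V := (ENNReal.ofReal_toReal hEf).symm
  have hlog4 : 0 ≤ Real.log (1 + 4 * A ^ 2) := Real.log_nonneg (by nlinarith)
  refine ⟨Real.pi * (4 + Real.log (1 + 4 * A ^ 2)) + s * V, by positivity, ?_⟩
  have h1 : ∀ᶠ ε : ℝ in 𝓝[>] 0, dens E a ε < θ := eventually_lt_of_limsup_lt hθ (dens_bdd E a)
  have h2 := h1.and ev01
  rw [eventually_nhdsWithin_iff, Metric.eventually_nhds_iff_ball] at h2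
  obtain ⟨ε₀, hε₀, h3⟩ := h2
  have h4 : ∀ᶠ b in 𝓝 a, ‖b - a‖ < ε₀ / A := by
    filter_upwards [Metric.ball_mem_nhds a (show 0 < ε₀ / A by positivity)] with b hb
    rwa [mem_ball_iff_norm] at hb
  filter_upwards [h4] with b hb hba
  set δ : ℝ := ‖b - a‖ with hδ
  have hδ0 : 0 < δ := norm_pos_iff.mpr (sub_ne_zero.mpr hba)
  have hAδ : A * δ < ε₀ := by
    rw [lt_div_iff₀ hA0] at hb
    linarith
  have hAδ0 : 0 < A * δ := by positivity
  obtain ⟨h5, h6, h7⟩ := h3 (A * δ) (by
    rw [mem_ball_zero_iff, Real.norm_eq_abs, abs_of_pos hAδ0]; exact hAδ) hAδ0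
  set L : ℝ := Real.log (1 / (A * δ)) with hL
  have hL0 : 0 < L := Real.log_pos (by rw [lt_div_iff₀ hAδ0]; linarith)
  have hLL : L ≤ Real.log (1 / δ) := by
    apply Real.log_le_log (by positivity)
    apply one_div_le_one_div_of_le hδ0
    nlinarith
  -- the annulus
  set I : ENNReal := ∫⁻ z in E ∩ (ball a 1 \ ball a (A * δ)), ENNReal.ofReal (1 / ‖z - a‖ ^ 2)
    with hI
  have hIf : I ≠ ⊤ := ne_top_of_le_ne_top ENNReal.ofReal_ne_top (ann_le (E := E) a hAδ0 h7.le)
  have hI1 : I.toReal ≤ θ * (2 * Real.pi * L) := by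
    unfold dens at h5
    rw [div_lt_iff₀ (by positivity), ann_eq] at h5
    exact h5.le
  have hI2 : I ≤ ENNReal.ofReal (θ * (2 * Real.pi * L)) := by
    rw [← ENNReal.ofReal_toReal hIf]
    exact ENNReal.ofReal_le_ofReal hI1
  -- the lower bound for the distance to `b`
  have hlow : ∀ z : ℂ, A * δ ≤ ‖z - a‖ → 1 / (‖z - a‖ * ‖z - b‖) ≤ s * (1 / ‖z - a‖ ^ 2) := by
    intro z hz
    have e1 : ‖z - a‖ ≤ ‖z - b‖ + δ := by
      have : z - a = (z - b) + (b - a) := by ring
      rw [this]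
      exact norm_add_le _ _
    have e2 : 0 < ‖z - a‖ := by linarith
    have e3 : ‖z - a‖ ≤ s * ‖z - b‖ := by
      have e4 : s * δ ≤ (s - 1) * ‖z - a‖ := by
        have : A * (s - 1) = s := by rw [hA]; field_simp
        nlinarith
      nlinarith
    have e4 : 0 < ‖z - b‖ := by
      by_contra hcon
      push Not at hcon
      nlinarith
    rw [mul_one_div, div_le_div_iff₀ (by positivity) (by positivity)]
    nlinarith
  set k : ℂ → ENNReal := fun z => ENNReal.ofReal (1 / (‖z - a‖ * ‖z - b‖)) with hk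
  set E₁ : Set ℂ := E ∩ closedBall a (A * δ) with hE₁
  set E₂ : Set ℂ := E ∩ (ball a 1 \ ball a (A * δ)) with hE₂
  set E₃ : Set ℂ := E \ ball a 1 with hE₃
  have hcov : E ⊆ E₁ ∪ (E₂ ∪ E₃) := by
    intro z hz
    by_cases z1 : ‖z - a‖ < A * δ
    · left
      exact ⟨hz, by rw [mem_closedBall_iff_norm]; exact z1.le⟩
    · right
      by_cases z2 : ‖z - a‖ < 1
      · left
        exact ⟨hz, by rwa [mem_ball_iff_norm], by rwa [mem_ball_iff_norm]⟩
      · right
        exact ⟨hz, by rwa [mem_ball_iff_norm]⟩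
  have hE₂m : MeasurableSet E₂ := hEm.inter (measurableSet_ball.diff measurableSet_ball)
  have hE₃m : MeasurableSet E₃ := hEm.diff measurableSet_ball
  have hE₁c : IsCompact E₁ := hE.inter_right isClosed_closedBall
  have b1 : ∫⁻ z in E₁, k z ≤ ENNReal.ofReal (Real.pi * (4 + Real.log (1 + 4 * A ^ 2))) := by
    have e1 : ∫⁻ z in E₁, k z = TT E₁ a b := rfl
    rw [e1]
    refine (TT_le hE₁c hba.symm).trans ?_
    apply ENNReal.ofReal_le_ofReal
    have e2 : (volume E₁).toReal ≤ Real.pi * (A * δ) ^ 2 := by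
      have e3 : volume E₁ ≤ ENNReal.ofReal (Real.pi * (A * δ) ^ 2) := by
        refine (measure_mono inter_subset_right).trans ?_
        rw [Complex.volume_closedBall, piE, ← ENNReal.ofReal_pow hAδ0.le,
          ← ENNReal.ofReal_mul (by positivity), mul_comm]
      exact (ENNReal.toReal_mono ENNReal.ofReal_ne_top e3).trans
        (by rw [ENNReal.toReal_ofReal (by positivity)])
    have e4 : ‖a - b‖ = δ := by rw [norm_sub_rev]
    rw [e4]
    have e5 : 4 * (volume E₁).toReal / (Real.pi * δ ^ 2) ≤ 4 * A ^ 2 := by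
      rw [div_le_iff₀ (by positivity)]
      calc 4 * (volume E₁).toReal ≤ 4 * (Real.pi * (A * δ) ^ 2) := by gcongr
        _ = _ := by ring
    have e6 : 0 ≤ 4 * (volume E₁).toReal / (Real.pi * δ ^ 2) := by positivity
    gcongr
  have b2 : ∫⁻ z in E₂, k z ≤ ENNReal.ofReal (s * (θ * (2 * Real.pi * L))) := by
    calc ∫⁻ z in E₂, k z ≤ ∫⁻ z in E₂, ENNReal.ofReal s * ENNReal.ofReal (1 / ‖z - a‖ ^ 2) := by
          apply setLIntegral_mono' hE₂m
          rintro z ⟨_, _, hz⟩
          rw [mem_ball_iff_norm, not_lt] at hz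
          rw [← ENNReal.ofReal_mul (by linarith)]
          exact ENNReal.ofReal_le_ofReal (hlow z hz)
      _ = ENNReal.ofReal s * I := by
          rw [lintegral_const_mul _ (by fun_prop)]
      _ ≤ ENNReal.ofReal s * ENNReal.ofReal (θ * (2 * Real.pi * L)) := by gcongr
      _ = _ := by rw [← ENNReal.ofReal_mul (by linarith)]
  have b3 : ∫⁻ z in E₃, k z ≤ ENNReal.ofReal (s * V) := by
    calc ∫⁻ z in E₃, k z ≤ ∫⁻ z in E₃, ENNReal.ofReal s := by
          apply setLIntegral_mono' hE₃m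
          rintro z ⟨_, hz⟩
          rw [mem_ball_iff_norm, not_lt] at hz
          apply ENNReal.ofReal_le_ofReal
          refine (hlow z (by linarith)).trans ?_
          have e1 : 1 / ‖z - a‖ ^ 2 ≤ 1 := by
            rw [div_le_one (by positivity)]
            nlinarith
          nlinarith
      _ = ENNReal.ofReal s * volume E₃ := by rw [setLIntegral_const]
      _ ≤ ENNReal.ofReal s * ENNReal.ofReal V := by
          rw [← hEV]
          gcongr
          exact sdiff_subset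
      _ = _ := by rw [← ENNReal.ofReal_mul (by linarith)]
  have hsum : TT E a b ≤ ENNReal.ofReal (Real.pi * (4 + Real.log (1 + 4 * A ^ 2)) +
      (s * (θ * (2 * Real.pi * L)) + s * V)) := by
    calc TT E a b ≤ ∫⁻ z in E₁ ∪ (E₂ ∪ E₃), k z := lintegral_mono_set hcov
      _ ≤ (∫⁻ z in E₁, k z) + ∫⁻ z in E₂ ∪ E₃, k z := lintegral_union_le _ _ _
      _ ≤ (∫⁻ z in E₁, k z) + ((∫⁻ z in E₂, k z) + ∫⁻ z in E₃, k z) := by
          gcongr
          exact lintegral_union_le _ _ _
      _ ≤ ENNReal.ofReal (Real.pi * (4 + Real.log (1 + 4 * A ^ 2))) +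
          (ENNReal.ofReal (s * (θ * (2 * Real.pi * L))) + ENNReal.ofReal (s * V)) := by
          gcongr
      _ = _ := by
          rw [← ENNReal.ofReal_add (by positivity) (by positivity),
            ← ENNReal.ofReal_add (by positivity) (by positivity)]
  have hfin := ENNReal.toReal_mono ENNReal.ofReal_ne_top hsum
  rw [ENNReal.toReal_ofReal (by positivity)] at hfin
  refine hfin.trans ?_
  have e1 : s * (θ * (2 * Real.pi * L)) ≤ s * (2 * Real.pi * θ) * Real.log (1 / δ) := by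
    calc s * (θ * (2 * Real.pi * L)) = s * (2 * Real.pi * θ) * L := by ring
      _ ≤ _ := by gcongr
  linarith

end Pool.Agent.H46TP
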