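import Mathlib
import Pool.Agent.H46TP.Fam2
import Pool.Agent.H46TP.Log

/-!
# The vector field of the motion on the complement of the filled Julia set
-/

set_option autoImplicit false

open Complex Topology Filter Metric MeasureTheory Set Polynomial

namespace Pool.Agent.H46TP

open Pool.Agent.H713R2 Pool.Agent.H713R2.AR Pool.Agent.H69N.LA
open Pool.Agent.H713R3.ZA (StROOT StINV StBSUM KJ QQ)
open Pool.Agent.H713R3.ZA.GAIN (gg gg_of_ne isExt UU_eq)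
open Pool.Agent.H46FS

section
variable {a : ℂ} {n : ℕ} {ρ A : ℝ} {f : ℂ → ℂ[X]} {R C₁ R₁ R₃ : ℝ} {ψ φ : ℂ × ℂ → ℂ}

/-- The motion at level `N`, with its functional equation and its uniqueness. -/
theorem exists_mvu (hf : FA a n ρ A f) (hb : BU a n ρ f R C₁ R₁ R₃ ψ φ) (N : ℕ) :
    ∃ Φ : ℂ → ℂ → ℂ, MV ρ (WU f R₃ N) Φ R₃ (2 * C₁) ∧
      (∀ t ∈ ball (0 : ℂ) ρ, ∀ z ∈ WU f R₃ N, (fv f t)^[N] (Φ t z) = ψ (t, PU f φ N z)) ∧
      ∀ z ∈ WU f R₃ N, ∀ Z' : ℂ → ℂ, ContinuousOn Z' (ball (0 : ℂ) ρ) → Z' 0 = z →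
        (∀ t ∈ ball (0 : ℂ) ρ, (fv f t)^[N] (Z' t) = ψ (t, PU f φ N z)) →
        ∀ t ∈ ball (0 : ℂ) ρ, Z' t = Φ t z := by
  have h0 := mem_ball_self (x := (0 : ℂ)) hf.ρ0
  obtain ⟨Φ, hΦd, hΦ0, hΦr, hΦu⟩ := exists_mot Pool.Agent.H713R3.ZA.root_holds hf hb N
  have hlarge : ∀ z : ℂ, R₃ < ‖z‖ → z ∈ WU f R₃ N := fun z hz => hb.large_of_large h0 hz N
  have hPeq : ∀ t ∈ ball (0 : ℂ) ρ, ∀ z z' : ℂ, z ∈ WU f R₃ N → z' ∈ WU f R₃ N →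
      ψ (t, PU f φ N z) = ψ (t, PU f φ N z') → PU f φ N z = PU f φ N z' :=
    fun t ht z z' h1 h2 h3 => hb.ψi _ ht (PU_norm hf hb h1) (PU_norm hf hb h2) h3
  have hcont : ∀ z ∈ WU f R₃ N, ContinuousOn (fun s => Φ s z) (ball (0 : ℂ) ρ) := fun z hz =>
    hΦd.continuousOn.comp (f := fun s : ℂ => ((s, z) : ℂ × ℂ)) (by fun_prop) (fun s hs => ⟨hs, hz⟩)
  have hinj : ∀ t ∈ ball (0 : ℂ) ρ, InjOn (Φ t) (WU f R₃ N) := by
    intro t ht z hz z' hz' h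
    have e1 : PU f φ N z = PU f φ N z' := by
      apply hPeq t ht z z' hz hz'
      rw [← hΦr t ht z hz, ← hΦr t ht z' hz', h]
    have e2 := hΦu z hz (fun s => Φ s z') (hcont z' hz') ⟨t, ht, h.symm⟩
      (fun s hs => by rw [hΦr s hs z' hz', e1]) 0 h0
    simp only [hΦ0 z hz, hΦ0 z' hz'] at e2
    exact e2.symm
  have hfar : ∀ t ∈ ball (0 : ℂ) ρ, ∀ z : ℂ, R₃ < ‖z‖ → Φ t z = farU ψ φ t z := by
    intro t ht z hz
    have hfc : ContinuousOn (fun s => farU ψ φ s z) (ball (0 : ℂ) ρ) :=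
      (farU_diff hf hb).continuousOn.comp (f := fun s : ℂ => ((s, z) : ℂ × ℂ)) (by fun_prop)
        (fun s hs => ⟨hs, hz⟩)
    exact (hΦu z (hlarge z hz) (fun s => farU ψ φ s z) hfc
      ⟨0, h0, by rw [farU_zero hf hb hz, hΦ0 z (hlarge z hz)]⟩
      (fun s hs => far_root hf hb hs hz N) t ht).symm
  refine ⟨Φ, ⟨hf.ρ0, isOpen_WU f R₃ N, hΦd, hΦ0, hinj, ?_, hlarge, ?_⟩, hΦr, ?_⟩
  · have := hb.hR; have := hb.hR₁; have := hb.hR₃; have := hb.hC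
    linarith
  · intro t ht z hz
    rw [hfar t ht z hz]
    exact farU_sub hf hb ht hz
  · intro z hz Z' h1 h2 h3
    exact hΦu z hz Z' h1 ⟨0, h0, by rw [h2, hΦ0 z hz]⟩ h3

/-- the motions of all levels -/
structure MF (ρ : ℝ) (f : ℂ → ℂ[X]) (R C₁ R₃ : ℝ) (Φ : ℕ → ℂ → ℂ → ℂ) : Prop where
  mv : ∀ N, MV ρ (WU f R₃ N) (Φ N) R₃ (2 * C₁)
  co : ∀ N, ∀ z ∈ WU f R₃ N, ∀ t ∈ ball (0 : ℂ) ρ, Φ (N + 1) t z = Φ N t z
  eq : ∀ N, ∀ z ∈ WU f R₃ (N + 1), ∀ t ∈ ball (0 : ℂ) ρ, fv f t (Φ (N + 1) t z) = Φ N t (fv f 0 z)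
  mono : Monotone (WU f R₃)
  union : ∀ z : ℂ, z ∉ KJ (f 0) ↔ ∃ N, z ∈ WU f R₃ N
  bd : ∀ z ∈ KJ (f 0), ∀ k, ‖(fv f 0)^[k] z‖ < R
  R1 : 1 ≤ R
  RR : R < R₃
  esc : ∀ z, R ≤ ‖z‖ → 2 * ‖z‖ ≤ ‖fv f 0 z‖
  cpt : ∀ N, IsCompact (LL f R₃ N)
  inter : (⋂ N, LL f R₃ N) = KJ (f 0)
  anti : Antitone (LL f R₃)

theorem PU_succ (hf : FA a n ρ A f) (hb : BU a n ρ f R C₁ R₁ R₃ ψ φ) {N : ℕ} {z : ℂ}
    (hz : z ∈ WU f R₃ N) : PU f φ (N + 1) z = QQ a n (PU f φ N z) := by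
  have h0 := mem_ball_self (x := (0 : ℂ)) hf.ρ0
  unfold PU
  rw [Function.iterate_succ_apply']
  exact hb.φ_fv h0 hz (hb.large_of_large h0 hz 1)

theorem WU_mono (hf : FA a n ρ A f) (hb : BU a n ρ f R C₁ R₁ R₃ ψ φ) : Monotone (WU f R₃) := by
  intro i j hij
  have := LL_anti hf hb hij
  unfold LL at this
  exact compl_subset_compl.mp this

theorem exists_MF (hf : FA a n ρ A f) (hb : BU a n ρ f R C₁ R₁ R₃ ψ φ) :
    ∃ Φ, MF ρ f R C₁ R₃ Φ := by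
  have h0 := mem_ball_self (x := (0 : ℂ)) hf.ρ0
  choose Φ hm hr hu using fun N => exists_mvu hf hb N
  have hcont : ∀ N, ∀ z ∈ WU f R₃ N, ContinuousOn (fun s => Φ N s z) (ball (0 : ℂ) ρ) :=
    fun N z hz => (hm N).hd.continuousOn.comp (f := fun s : ℂ => ((s, z) : ℂ × ℂ)) (by fun_prop)
      (fun s hs => ⟨hs, hz⟩)
  have hmono := WU_mono hf hb
  refine ⟨Φ, hm, ?_, ?_, hmono, ?_, fun z hz k => hb.lt_of_mem_KJ h0 hz k, hb.hR, ?_, hb.esc 0 h0,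
    fun N => isCompact_LL hf hb N, iInter_LL hf hb, LL_anti hf hb⟩
  · intro N z hz t ht
    have hz' : z ∈ WU f R₃ (N + 1) := hmono (Nat.le_succ N) hz
    refine (hu (N + 1) z hz' (fun t => Φ N t z) (hcont N z hz) ((hm N).H0 z hz) ?_ t ht).symm
    intro s hs
    rw [Function.iterate_succ_apply', hr N s hs z hz, hb.fe s hs _ (PU_norm hf hb hz),
      PU_succ hf hb hz]
    rfl
  · intro N z hz t ht
    have hz' : fv f 0 z ∈ WU f R₃ N := by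
      have h1 : R₃ < ‖(fv f 0)^[N + 1] z‖ := hz
      rwa [Function.iterate_succ_apply] at h1
    have hc : ContinuousOn (fun s => fv f s (Φ (N + 1) s z)) (ball (0 : ℂ) ρ) :=
      hf.eval_diff.continuousOn.comp (f := fun s : ℂ => ((s, Φ (N + 1) s z) : ℂ × ℂ))
        (continuousOn_id.prodMk (hcont (N + 1) z hz)) (fun s hs => ⟨hs, mem_univ _⟩)
    refine hu N (fv f 0 z) hz' _ hc ?_ ?_ t ht
    · simp only [(hm (N + 1)).H0 z hz]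
    · intro s hs
      rw [← Function.iterate_succ_apply, hr (N + 1) s hs z hz]
      unfold PU
      rw [Function.iterate_succ_apply]
  · intro z
    rw [← iInter_LL hf hb, mem_iInter, not_forall]
    exact exists_congr fun N => by rw [LL, mem_compl_iff, not_not]
  · have h1 := hb.hR₁; have h2 := hb.hC; have h3 := hb.hR₃
    linarith

end

section
variable {ρ R C₁ R₃ : ℝ} {f : ℂ → ℂ[X]} {Φ : ℕ → ℂ → ℂ → ℂ}

theorem MF.co' (h : MF ρ f R C₁ R₃ Φ) {N M : ℕ} (hNM : N ≤ M) {z : ℂ} (hz : z ∈ WU f R₃ N)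
    {t : ℂ} (ht : t ∈ ball (0 : ℂ) ρ) : Φ M t z = Φ N t z := by
  induction M, hNM using Nat.le_induction with
  | base => rfl
  | succ M hM ih => rw [h.co M z (h.mono hM hz) t ht, ih]

open Classical in
/-- The vector field. -/
noncomputable def VF (f : ℂ → ℂ[X]) (R₃ : ℝ) (Φ : ℕ → ℂ → ℂ → ℂ) (z : ℂ) : ℂ :=
  if h : ∃ N, z ∈ WU f R₃ N then deriv (fun t => Φ (Nat.find h) t z) 0 else 0

theorem MF.VF_eq (h : MF ρ f R C₁ R₃ Φ) {N : ℕ} {z : ℂ} (hz : z ∈ WU f R₃ N) :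
    VF f R₃ Φ z = deriv (fun t => Φ N t z) 0 := by
  classical
  have hex : ∃ N, z ∈ WU f R₃ N := ⟨N, hz⟩
  have h0 := mem_ball_self (x := (0 : ℂ)) (h.mv 0).ρ0
  unfold VF
  rw [dif_pos hex]
  apply Filter.EventuallyEq.deriv_eq
  filter_upwards [isOpen_ball.mem_nhds h0] with t ht
  exact (h.co' (Nat.find_min' hex hz) (Nat.find_spec hex) ht).symm

theorem MF.hasDerivAt (h : MF ρ f R C₁ R₃ Φ) {N : ℕ} {z : ℂ} (hz : z ∈ WU f R₃ N) :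
    HasDerivAt (fun t => Φ N t z) (VF f R₃ Φ z) 0 := by
  rw [h.VF_eq hz]
  have h0 := mem_ball_self (x := (0 : ℂ)) (h.mv 0).ρ0
  have h1 : DifferentiableOn ℂ (fun t => Φ N t z) (ball (0 : ℂ) ρ) :=
    (h.mv N).hd.comp (f := fun s : ℂ => ((s, z) : ℂ × ℂ)) (by fun_prop) (fun s hs => ⟨hs, hz⟩)
  exact (h1.differentiableAt (isOpen_ball.mem_nhds h0)).hasDerivAt

/-- restriction of the domain -/
theorem MV_sub {Ω Ω' : Set ℂ} {C : ℝ} {H : ℂ → ℂ → ℂ} (hm : MV ρ Ω H R₃ C) (hs : Ω' ⊆ Ω)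
    (ho : IsOpen Ω') (hfar : ∀ z : ℂ, R₃ < ‖z‖ → z ∈ Ω') : MV ρ Ω' H R₃ C where
  ρ0 := hm.ρ0
  Ωo := ho
  hd := hm.hd.mono (prod_mono subset_rfl hs)
  H0 := fun z hz => hm.H0 z (hs hz)
  hi := fun t ht => (hm.hi t ht).mono hs
  R₀1 := hm.R₀1
  far := hfar
  hC := hm.hC

/-- **The two point bound for the vector field outside of the filled Julia set.** -/
theorem MF.two (h : MF ρ f R C₁ R₃ Φ) (M : ℕ) {z w : ℂ} (hz : z ∉ KJ (f 0)) (hw : w ∉ KJ (f 0))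
    (hzM : z ∉ WU f R₃ M) (hwM : w ∉ WU f R₃ M) (hzw : z ≠ w) :
    Real.pi * ρ * ‖VF f R₃ Φ z - VF f R₃ Φ w‖ ≤ ‖z - w‖ * (TT (LL f R₃ M) z w).toReal := by
  obtain ⟨N₁, h1⟩ := (h.union z).mp hz
  obtain ⟨N₂, h2⟩ := (h.union w).mp hw
  set N := max M (max N₁ N₂) with hN
  have hzN : z ∈ WU f R₃ N := h.mono (by omega) h1
  have hwN : w ∈ WU f R₃ N := h.mono (by omega) h2
  have hsub : WU f R₃ M ⊆ WU f R₃ N := h.mono (by omega)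
  have hm := h.mv N
  have h0 := mem_ball_self (x := (0 : ℂ)) hm.ρ0
  have hm' : MV ρ (WU f R₃ M) (Φ N) R₃ (2 * C₁) :=
    MV_sub hm hsub (isOpen_WU f R₃ M) (h.mv M).far
  have hd : ∀ u ∈ WU f R₃ N, DifferentiableOn ℂ (fun t => Φ N t u) (ball (0 : ℂ) ρ) := fun u hu =>
    hm.hd.comp (f := fun s : ℂ => ((s, u) : ℂ × ℂ)) (by fun_prop) (fun s hs => ⟨hs, hu⟩)
  have key := Pool.Agent.H46TP.two hm' (ζ := fun t => Φ N t z) (η := fun t => Φ N t w) (hd z hzN)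
    (hd w hwN)
    (fun t ht u hu heq => hzM (by rw [← hm.hi t ht (hsub hu) hzN heq]; exact hu))
    (fun t ht u hu heq => hwM (by rw [← hm.hi t ht (hsub hu) hwN heq]; exact hu))
    (fun t ht heq => hzw (hm.hi t ht hzN hwN heq))
  rw [← h.VF_eq hzN, ← h.VF_eq hwN, hm.H0 z hzN, hm.H0 w hwN] at key
  exact key

end

end Pool.Agent.H46TP
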