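import Mathlib
import Pool.Agent.H46TP.Vec

/-!
# The extension of the vector field to the Julia set
-/

set_option autoImplicit false

open Complex Topology Filter Metric MeasureTheory Set Polynomial

namespace Pool.Agent.H46TP

open Pool.Agent.H713R2 Pool.Agent.H713R2.AR Pool.Agent.H69N.LA
open Pool.Agent.H713R3.ZA (StROOT StINV StBSUM KJ QQ)
open Pool.Agent.H46FS

/-- the affine map with `z ↦ a`, `w ↦ b` -/
noncomputable def af (z w a b u : ℂ) : ℂ := a + (b - a) / (w - z) * (u - z)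

theorem TT_affine {E : Set ℂ} (hE : MeasurableSet E) {z w a b : ℂ} (hzw : z ≠ w) (hab : a ≠ b) :
    TT (af z w a b '' E) a b = TT E z w := by
  set k : ℂ := (b - a) / (w - z) with hk
  have hk0 : k ≠ 0 := div_ne_zero (sub_ne_zero.mpr hab.symm) (sub_ne_zero.mpr hzw.symm)
  have hkn : 0 < ‖k‖ := norm_pos_iff.mpr hk0
  have hd : ∀ u, HasDerivAt (af z w a b) k u := by
    intro u
    have h1 : HasDerivAt (fun u : ℂ => a + k * (u - z)) k u := by
      simpa using (((hasDerivAt_id u).sub_const z).const_mul k).const_add a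
    exact h1
  have hinj : InjOn (af z w a b) E := by
    intro u _ v _ h
    have h1 : k * (u - z) = k * (v - z) := add_left_cancel h
    have h2 := mul_left_cancel₀ hk0 h1
    exact sub_left_injective h2
  have h := Pool.Agent.TH136.Tip.lintegral_holo (F := af z w a b) (fun u => (hd u).differentiableAt)
    hE hinj (fun v => ENNReal.ofReal (1 / (‖v - a‖ * ‖v - b‖)))
  unfold TT
  rw [← h]
  apply lintegral_congr
  intro u
  rw [(hd u).deriv, ← ENNReal.ofReal_mul (by positivity)]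
  congr 1
  have h1 : af z w a b u - a = k * (u - z) := by unfold af; ring
  have h2 : af z w a b u - b = k * (u - w) := by
    have h3 : k * (w - z) = b - a := div_mul_cancel₀ _ (sub_ne_zero.mpr hzw.symm)
    have h4 : af z w a b u = a + k * (u - z) := rfl
    rw [h4]
    linear_combination h3
  rw [h1, h2, norm_mul, norm_mul]
  by_cases hu1 : ‖u - z‖ = 0
  · rw [hu1]; simp
  by_cases hu2 : ‖u - w‖ = 0
  · rw [hu2]; simp
  field_simp

section
variable {ρ R C₁ R₃ : ℝ} {f : ℂ → ℂ[X]} {Φ : ℕ → ℂ → ℂ → ℂ}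

/-- the part of the basin of infinity in the disc -/
def SS (f : ℂ → ℂ[X]) (R₃ : ℝ) : Set ℂ := (KJ (f 0))ᶜ ∩ closedBall 0 R₃

theorem MF.notMem_WU0 {z : ℂ} (hz : z ∈ SS f R₃) : z ∉ WU f R₃ 0 := by
  intro h
  have h1 : R₃ < ‖z‖ := h
  have h2 := mem_closedBall_zero_iff.mp hz.2
  linarith

theorem MF.bound (h : MF ρ f R C₁ R₃ Φ) {z w : ℂ} (hz : z ∈ SS f R₃) (hw : w ∈ SS f R₃) :
    ρ * ‖VF f R₃ Φ z - VF f R₃ Φ w‖ ≤ ‖z - w‖ *
      (4 + Real.log (1 + 4 * (volume (LL f R₃ 0)).toReal / (Real.pi * ‖z - w‖ ^ 2))) := by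
  have hpi := Real.pi_pos
  by_cases hzw : z = w
  · rw [hzw]; simp
  have h1 := h.two 0 hz.1 hw.1 (MF.notMem_WU0 hz) (MF.notMem_WU0 hw) hzw
  have h2 := TT_le (h.cpt 0) hzw
  have hL : 0 ≤ Real.log (1 + 4 * (volume (LL f R₃ 0)).toReal / (Real.pi * ‖z - w‖ ^ 2)) :=
    Real.log_nonneg (by
      have : 0 ≤ 4 * (volume (LL f R₃ 0)).toReal / (Real.pi * ‖z - w‖ ^ 2) := by positivity
      linarith)
  have h3 := ENNReal.toReal_mono ENNReal.ofReal_ne_top h2
  rw [ENNReal.toReal_ofReal (by positivity)] at h3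
  have h4 := h1.trans (mul_le_mul_of_nonneg_left h3 (norm_nonneg (z - w)))
  have h5 : Real.pi * (ρ * ‖VF f R₃ Φ z - VF f R₃ Φ w‖) ≤ Real.pi * (‖z - w‖ *
      (4 + Real.log (1 + 4 * (volume (LL f R₃ 0)).toReal / (Real.pi * ‖z - w‖ ^ 2)))) := by
    linarith
  exact le_of_mul_le_mul_left h5 hpi

/-- `x (4 + log (1 + B / x²)) → 0` -/
theorem modulus_tendsto {B : ℝ} (hB : 0 ≤ B) :
    Tendsto (fun x : ℝ => x * (4 + Real.log (1 + B / x ^ 2))) (𝓝[≥] 0) (𝓝 0) := by
  -- log (1 + y) ≤ 2 √(1 + y) ≤ 2 (1 + √y)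
  have h1 : ∀ x : ℝ, 0 ≤ x → 0 ≤ x * (4 + Real.log (1 + B / x ^ 2)) := by
    intro x hx
    have : 0 ≤ B / x ^ 2 := by positivity
    have : 0 ≤ Real.log (1 + B / x ^ 2) := Real.log_nonneg (by linarith)
    positivity
  -- we use log y ≤ 4 y^(1/4)
  have h2 : ∀ x : ℝ, 0 ≤ x → x ≤ 1 →
      x * (4 + Real.log (1 + B / x ^ 2)) ≤ (9 + B) * √x := by
    intro x hx hx1
    rcases hx.eq_or_lt with h0 | h0
    · rw [← h0]; simp
    set s := √x with hs
    have hs0 : 0 < s := Real.sqrt_pos.mpr h0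
    have hs1 : s ≤ 1 := by rw [hs]; exact Real.sqrt_le_one.mpr hx1
    have hxs : x = s ^ 2 := (Real.sq_sqrt hx).symm
    have h3 : 1 + B / x ^ 2 ≤ (1 + B) / s ^ 4 := by
      rw [hxs, show (s ^ 2) ^ 2 = s ^ 4 by ring, add_div]
      have : 1 ≤ 1 / s ^ 4 := by
        rw [le_div_iff₀ (by positivity), one_mul]
        exact pow_le_one₀ hs0.le hs1
      linarith
    have h4 : Real.log (1 + B / x ^ 2) ≤ Real.log ((1 + B) / s ^ 4) :=
      Real.log_le_log (by positivity) h3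
    have h5 : Real.log ((1 + B) / s ^ 4) = Real.log (1 + B) + 4 * Real.log (1 / s) := by
      rw [Real.log_div (by positivity) (by positivity), Real.log_pow, one_div, Real.log_inv]
      push_cast
      ring
    have h6 : Real.log (1 / s) ≤ 1 / s := by
      have := Real.log_le_sub_one_of_pos (show 0 < 1 / s by positivity)
      linarith
    have h7 : Real.log (1 + B) ≤ 1 + B := by
      have := Real.log_le_sub_one_of_pos (show 0 < 1 + B by positivity)
      linarith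
    have h8 : x * (4 + Real.log (1 + B / x ^ 2)) ≤ s ^ 2 * (4 + (1 + B) + 4 * (1 / s)) := by
      rw [← hxs]
      apply mul_le_mul_of_nonneg_left _ hx
      linarith
    have h9 : s ^ 2 * (4 + (1 + B) + 4 * (1 / s)) = s * (s * (4 + (1 + B)) + 4) := by
      field_simp
    rw [h9] at h8
    refine h8.trans ?_
    rw [mul_comm (9 + B) s]
    apply mul_le_mul_of_nonneg_left _ hs0.le
    nlinarith
  have h3 : Tendsto (fun x : ℝ => (9 + B) * √x) (𝓝[≥] 0) (𝓝 0) := by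
    have : Tendsto (fun x : ℝ => (9 + B) * √x) (𝓝 0) (𝓝 ((9 + B) * √0)) :=
      Continuous.tendsto (by fun_prop) 0
    rw [Real.sqrt_zero, mul_zero] at this
    exact this.mono_left nhdsWithin_le_nhds
  apply squeeze_zero' _ _ h3
  · filter_upwards [self_mem_nhdsWithin] with x hx using h1 x hx
  · filter_upwards [Icc_mem_nhdsGE (show (0 : ℝ) < 1 by norm_num)] with x hx using h2 x hx.1 hx.2

theorem MF.unif (h : MF ρ f R C₁ R₃ Φ) : UniformContinuousOn (VF f R₃ Φ) (SS f R₃) := by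
  have hρ := (h.mv 0).ρ0
  rw [Metric.uniformContinuousOn_iff]
  intro ε hε
  set B : ℝ := 4 * (volume (LL f R₃ 0)).toReal / Real.pi with hB
  have hpi := Real.pi_pos
  have hB0 : 0 ≤ B := by positivity
  have h1 := (modulus_tendsto hB0).eventually (gt_mem_nhds (show 0 < ρ * ε by positivity))
  rw [eventually_nhdsWithin_iff, Metric.eventually_nhds_iff] at h1
  obtain ⟨δ, hδ, h2⟩ := h1
  refine ⟨δ, hδ, ?_⟩
  intro z hz w hw hzw
  rw [dist_eq_norm] at hzw ⊢
  have h3 := h2 (y := ‖z - w‖) (by rwa [Real.dist_eq, sub_zero, abs_of_nonneg (norm_nonneg _)])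
    (norm_nonneg _)
  have h4 := h.bound hz hw
  have h5 : 4 * (volume (LL f R₃ 0)).toReal / (Real.pi * ‖z - w‖ ^ 2) = B / ‖z - w‖ ^ 2 := by
    rw [hB, div_div]
  rw [h5] at h4
  have h6 : ρ * ‖VF f R₃ Φ z - VF f R₃ Φ w‖ < ρ * ε := lt_of_le_of_lt h4 h3
  exact lt_of_mul_lt_mul_left h6 hρ.le

/-- the boundary points of the filled Julia set -/
def BJ (f : ℂ → ℂ[X]) : Set ℂ := KJ (f 0) ∩ closure (KJ (f 0))ᶜ

/-- the points of the boundary are limits of points of `SS` -/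
theorem MF.neBot (h : MF ρ f R C₁ R₃ Φ) {a : ℂ} (ha : a ∈ BJ f) : (𝓝[SS f R₃] a).NeBot := by
  have h1 : (𝓝[(KJ (f 0))ᶜ] a).NeBot := mem_closure_iff_nhdsWithin_neBot.mp ha.2
  have h2 : 𝓝[SS f R₃] a = 𝓝[(KJ (f 0))ᶜ] a := by
    unfold SS
    apply nhdsWithin_inter_of_mem'
    apply mem_nhdsWithin_of_mem_nhds
    apply Filter.mem_of_superset _ ball_subset_closedBall
    apply isOpen_ball.mem_nhds
    rw [mem_ball_zero_iff]
    have := h.bd a ha.1 0
    have := h.RR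
    simp only [Function.iterate_zero, id] at *
    linarith
  rw [h2]
  exact h1

/-- **The extension of the vector field.** -/
theorem MF.exists_lim (h : MF ρ f R C₁ R₃ Φ) :
    ∃ W : ℂ → ℂ, ∀ a ∈ BJ f, Tendsto (VF f R₃ Φ) (𝓝[SS f R₃] a) (𝓝 (W a)) := by
  have h1 : ∀ a ∈ BJ f, ∃ y, Tendsto (VF f R₃ Φ) (𝓝[SS f R₃] a) (𝓝 y) := by
    intro a ha
    have := h.neBot ha
    have hc : Cauchy (𝓝[SS f R₃] a) := cauchy_nhds.mono nhdsWithin_le_nhds
    have hc2 : Cauchy (map (VF f R₃ Φ) (𝓝[SS f R₃] a)) :=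
      hc.map_of_le h.unif inf_le_right
    obtain ⟨y, hy⟩ := CompleteSpace.complete hc2
    exact ⟨y, hy⟩
  choose! W hW using h1
  exact ⟨W, hW⟩

end

end Pool.Agent.H46TP
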