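import Mathlib
import Pool.Agent.H46TP.Ext

/-!
# The two point bound on the boundary of the filled Julia set
-/

set_option autoImplicit false

open Complex Topology Filter Metric MeasureTheory Set Polynomial

namespace Pool.Agent.H46TP

open Pool.Agent.H713R2 Pool.Agent.H713R2.AR Pool.Agent.H69N.LA
open Pool.Agent.H713R3.ZA (StROOT StINV StBSUM KJ QQ)
open Pool.Agent.H46FS

section
variable {ρ R C₁ R₃ : ℝ} {f : ℂ → ℂ[X]} {Φ : ℕ → ℂ → ℂ → ℂ}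

theorem MF.R3pos (h : MF ρ f R C₁ R₃ Φ) : 0 < R₃ := by
  have := h.R1; have := h.RR
  linarith

theorem MF.cont (_ : MF ρ f R C₁ R₃ Φ) (k : ℕ) : Continuous (fv f 0)^[k] :=
  (fv_differentiable f 0).continuous.iterate k

theorem MF.mem_iff (h : MF ρ f R C₁ R₃ Φ) (z : ℂ) : fv f 0 z ∈ KJ (f 0) ↔ z ∈ KJ (f 0) := by
  rw [← not_iff_not, h.union, h.union]
  constructor
  · rintro ⟨N, hN⟩
    refine ⟨N + 1, ?_⟩
    have h1 : R₃ < ‖(fv f 0)^[N] (fv f 0 z)‖ := hN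
    change R₃ < ‖(fv f 0)^[N + 1] z‖
    rwa [Function.iterate_succ_apply]
  · rintro ⟨N, hN⟩
    have hN' : z ∈ WU f R₃ (N + 1) := h.mono (Nat.le_succ N) hN
    refine ⟨N, ?_⟩
    have h1 : R₃ < ‖(fv f 0)^[N + 1] z‖ := hN'
    rwa [Function.iterate_succ_apply] at h1

/-- near a point of the filled Julia set -/
theorem MF.near (h : MF ρ f R C₁ R₃ Φ) {a : ℂ} (ha : a ∈ KJ (f 0)) (k : ℕ) :
    ∀ᶠ z in 𝓝 a, ‖(fv f 0)^[k] z‖ < R₃ := by
  have h1 : Tendsto (fun z => ‖(fv f 0)^[k] z‖) (𝓝 a) (𝓝 ‖(fv f 0)^[k] a‖) :=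
    ((h.cont k).tendsto a).norm
  apply h1.eventually (gt_mem_nhds _)
  have := h.bd a ha k
  have := h.RR
  linarith

theorem MF.LL_int (h : MF ρ f R C₁ R₃ Φ) {M : ℕ} {u : ℂ} (hu : u ∈ LL f R₃ (M + 1)) :
    ‖(fv f 0)^[M] u‖ < R₃ := by
  by_contra hcon
  push Not at hcon
  have h1 := mem_LL.mp hu
  rw [Function.iterate_succ_apply'] at h1
  have h2 := h.esc ((fv f 0)^[M] u) (by have := h.RR; linarith)
  have := h.R3pos
  linarith

theorem af_near {a b : ℂ} (hab : a ≠ b) (r ε : ℝ) (hε : 0 < ε) :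
    ∀ᶠ p : ℂ × ℂ in 𝓝 a ×ˢ 𝓝 b, ∀ u : ℂ, ‖u‖ ≤ r → ‖af p.1 p.2 a b u - u‖ < ε := by
  have hba : b - a ≠ 0 := sub_ne_zero.mpr hab.symm
  have h1 : Tendsto (fun p : ℂ × ℂ => ‖a - p.1‖ + ‖(b - a) / (p.2 - p.1) - 1‖ * (r + ‖p.1‖))
      (𝓝 (a, b)) (𝓝 (‖a - a‖ + ‖(b - a) / (b - a) - 1‖ * (r + ‖a‖))) := by
    apply ContinuousAt.tendsto (x := ((a, b) : ℂ × ℂ))
      (f := fun p : ℂ × ℂ => ‖a - p.1‖ + ‖(b - a) / (p.2 - p.1) - 1‖ * (r + ‖p.1‖))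
    have h2 : ContinuousAt (fun p : ℂ × ℂ => (b - a) / (p.2 - p.1)) (a, b) :=
      ContinuousAt.div continuousAt_const (by fun_prop) hba
    have h3 : ContinuousAt (fun p : ℂ × ℂ => ‖(b - a) / (p.2 - p.1) - 1‖) (a, b) :=
      (h2.sub continuousAt_const).norm
    exact ContinuousAt.add (by fun_prop) (h3.mul (by fun_prop))
  rw [div_self hba, sub_self, sub_self, norm_zero, zero_mul, add_zero] at h1
  rw [← nhds_prod_eq]
  filter_upwards [h1.eventually (gt_mem_nhds hε)] with p hp u hu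
  refine lt_of_le_of_lt ?_ hp
  have h4 : af p.1 p.2 a b u - u = (a - p.1) + ((b - a) / (p.2 - p.1) - 1) * (u - p.1) := by
    unfold af
    ring
  rw [h4]
  refine (norm_add_le _ _).trans (add_le_add_right ?_ _)
  rw [norm_mul]
  apply mul_le_mul_of_nonneg_left _ (norm_nonneg _)
  exact (norm_sub_le _ _).trans (by linarith)

/-- **The two point bound on the boundary of the filled Julia set.** -/
theorem MF.two_bd (h : MF ρ f R C₁ R₃ Φ) {W : ℂ → ℂ}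
    (hW : ∀ a ∈ BJ f, Tendsto (VF f R₃ Φ) (𝓝[SS f R₃] a) (𝓝 (W a))) {a b : ℂ} (ha : a ∈ BJ f)
    (hb : b ∈ BJ f) (hab : a ≠ b) :
    Real.pi * ρ * ‖W a - W b‖ ≤ ‖a - b‖ * (TT (KJ (f 0)) a b).toReal := by
  have key : ∀ M : ℕ, Real.pi * ρ * ‖W a - W b‖ ≤ ‖a - b‖ * (TT (LL f R₃ M) a b).toReal := by
    intro M
    have hna := h.neBot ha
    have hnb := h.neBot hb
    -- the compact set is well inside
    set U : Set ℂ := {u | ‖(fv f 0)^[M] u‖ < R₃} with hU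
    have hUo : IsOpen U := isOpen_lt (h.cont M).norm continuous_const
    have hsub : LL f R₃ (M + 1) ⊆ U := fun u hu => h.LL_int hu
    obtain ⟨ε, hε, hth⟩ := (h.cpt (M + 1)).exists_thickening_subset_open hUo hsub
    have hle : 𝓝[SS f R₃] a ×ˢ 𝓝[SS f R₃] b ≤ 𝓝 a ×ˢ 𝓝 b :=
      Filter.prod_mono nhdsWithin_le_nhds nhdsWithin_le_nhds
    have e1 := (af_near hab R₃ ε hε).filter_mono hle
    have e2 : ∀ᶠ p : ℂ × ℂ in 𝓝 a ×ˢ 𝓝 b, p.1 ≠ p.2 := by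
      rw [← nhds_prod_eq]
      have : IsOpen {p : ℂ × ℂ | p.1 ≠ p.2} := isOpen_ne_fun continuous_fst continuous_snd
      exact this.mem_nhds hab
    have e2' := e2.filter_mono hle
    have e3 : ∀ᶠ p : ℂ × ℂ in 𝓝 a ×ˢ 𝓝 b, ‖(fv f 0)^[M + 1] p.1‖ < R₃ ∧
        ‖(fv f 0)^[M + 1] p.2‖ < R₃ :=
      (tendsto_fst.eventually (h.near ha.1 (M + 1))).and
        (tendsto_snd.eventually (h.near hb.1 (M + 1)))
    have e3' := e3.filter_mono hle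
    have e4 : ∀ᶠ p : ℂ × ℂ in 𝓝[SS f R₃] a ×ˢ 𝓝[SS f R₃] b, p.1 ∈ SS f R₃ ∧ p.2 ∈ SS f R₃ :=
      (tendsto_fst.eventually self_mem_nhdsWithin).and
        (tendsto_snd.eventually self_mem_nhdsWithin)
    have hfin : TT (LL f R₃ M) a b ≠ ⊤ := TT_ne_top (h.cpt M) hab
    have l1 : Tendsto (fun p : ℂ × ℂ => Real.pi * ρ * ‖VF f R₃ Φ p.1 - VF f R₃ Φ p.2‖)
        (𝓝[SS f R₃] a ×ˢ 𝓝[SS f R₃] b) (𝓝 (Real.pi * ρ * ‖W a - W b‖)) :=
      ((((hW a ha).comp tendsto_fst).sub ((hW b hb).comp tendsto_snd)).norm).const_mul _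
    have l2 : Tendsto (fun p : ℂ × ℂ => ‖p.1 - p.2‖ * (TT (LL f R₃ M) a b).toReal)
        (𝓝[SS f R₃] a ×ˢ 𝓝[SS f R₃] b) (𝓝 (‖a - b‖ * (TT (LL f R₃ M) a b).toReal)) := by
      apply Tendsto.mul_const
      have t1 : Tendsto (fun p : ℂ × ℂ => p.1) (𝓝[SS f R₃] a ×ˢ 𝓝[SS f R₃] b) (𝓝 a) :=
        tendsto_fst.mono_right nhdsWithin_le_nhds
      have t2 : Tendsto (fun p : ℂ × ℂ => p.2) (𝓝[SS f R₃] a ×ˢ 𝓝[SS f R₃] b) (𝓝 b) :=
        tendsto_snd.mono_right nhdsWithin_le_nhds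
      exact (t1.sub t2).norm
    refine le_of_tendsto_of_tendsto l1 l2 ?_
    filter_upwards [e1, e2', e3', e4] with p h1 h2 h3 h4
    have h5 := h.two (M + 1) h4.1.1 h4.2.1 (not_lt.mpr h3.1.le) (not_lt.mpr h3.2.le) h2
    refine h5.trans (mul_le_mul_of_nonneg_left ?_ (norm_nonneg _))
    apply ENNReal.toReal_mono hfin
    rw [← TT_affine (h.cpt (M + 1)).isClosed.measurableSet h2 hab]
    apply TT_mono
    rintro _ ⟨u, hu, rfl⟩
    rw [mem_LL]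
    have h6 : ‖u‖ ≤ R₃ := by
      have := h.anti (Nat.zero_le (M + 1)) hu
      rw [mem_LL] at this
      simpa using this
    have h7 : af p.1 p.2 a b u ∈ thickening ε (LL f R₃ (M + 1)) := by
      rw [Metric.mem_thickening_iff]
      exact ⟨u, hu, by rw [dist_eq_norm]; exact h1 u h6⟩
    have h8 : ‖(fv f 0)^[M] (af p.1 p.2 a b u)‖ < R₃ := hth h7
    exact h8.le
  have hlim := TT_tendsto h.cpt h.anti hab
  rw [h.inter] at hlim
  have hfin : TT (KJ (f 0)) a b ≠ ⊤ := by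
    apply ne_top_of_le_ne_top (TT_ne_top (h.cpt 0) hab)
    apply TT_mono
    rw [← h.inter]
    exact iInter_subset _ 0
  exact ge_of_tendsto' (((ENNReal.tendsto_toReal hfin).comp hlim).const_mul _) key

end

end Pool.Agent.H46TP
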