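import Mathlib

/-!
# Additive cocycles along backward orbits of a repelling fixed point
-/

set_option autoImplicit false

open Complex Topology Filter Metric MeasureTheory Set

namespace Pool.Agent.H46TP

theorem mul_log_le {x : ℝ} (hx : 0 < x) (hx1 : x < 1) : x * Real.log (1 / x) ≤ 2 * √x := by
  set s := √x with hs
  have hs0 : 0 < s := Real.sqrt_pos.mpr hx
  have hxs : x = s ^ 2 := (Real.sq_sqrt hx.le).symm
  have h1 : Real.log (1 / x) = 2 * Real.log (1 / s) := by
    rw [hxs, one_div, one_div, Real.log_inv, Real.log_inv, Real.log_pow]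
    push_cast
    ring
  have h2 : Real.log (1 / s) ≤ 1 / s := by
    have := Real.log_le_sub_one_of_pos (show 0 < 1 / s by positivity)
    linarith
  rw [h1, hxs]
  have h3 : s ^ 2 * (2 * Real.log (1 / s)) ≤ s ^ 2 * (2 * (1 / s)) := by gcongr
  refine h3.trans (le_of_eq ?_)
  field_simp

/-- **Growth of additive cocycles.** -/
theorem growth {F : ℂ → ℂ} {α lam : ℂ} (hF : HasStrictDerivAt F lam α) (hFα : F α = α)
    (hlam : 1 < ‖lam‖) {B : Set ℂ} (hacc : ∀ ε : ℝ, 0 < ε → ∃ b ∈ B, b ≠ α ∧ ‖b - α‖ < ε)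
    (hback : ∀ᶠ y in 𝓝 α, F y ∈ B → y ∈ B) {q : ℂ → ℂ} {Λ : ℂ} {C A₀ B₀ : ℝ} (hC : 0 ≤ C)
    (hA₀ : 0 ≤ A₀) (hB₀ : 0 ≤ B₀)
    (hq : ∀ᶠ y in 𝓝 α, y ∈ B → y ≠ α → ‖q (F y) - q y - Λ‖ ≤ C * ‖y - α‖ * (1 + ‖q y‖))
    (hg : ∀ᶠ y in 𝓝 α, y ∈ B → y ≠ α → ‖q y‖ ≤ A₀ * Real.log (1 / ‖y - α‖) + B₀) :
    ‖Λ‖ ≤ A₀ * Real.log ‖lam‖ := by
  have hlam0 : lam ≠ 0 := by
    rintro rfl
    rw [norm_zero] at hlam
    linarith
  have hl0 : 0 < ‖lam‖ := by linarith
  -- it suffices to prove the bound with a slightly larger number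
  have key : ∀ μ : ℝ, ‖lam‖ < μ → ‖Λ‖ ≤ A₀ * Real.log μ := by
    intro μ hμ
    have hμ1 : 1 < μ := hlam.trans hμ
    have hlogμ : 0 < Real.log μ := Real.log_pos hμ1
    set g := hF.localInverse F lam α hlam0 with hgdef
    have hgd : HasStrictDerivAt g lam⁻¹ α := by
      have := hF.to_localInverse hlam0
      rwa [hFα] at this
    have hgr : ∀ᶠ y in 𝓝 α, F (g y) = y := by
      have := hF.eventually_right_inverse hlam0
      rwa [hFα] at this
    have hgα : g α = α := by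
      have := hF.eventually_left_inverse hlam0
      have h2 := this.self_of_nhds
      rw [hFα] at h2
      exact h2
    -- contraction
    set κ : ℝ := (‖lam‖⁻¹ + 1) / 2 with hκ
    have hinv1 : ‖lam‖⁻¹ < 1 := inv_lt_one_of_one_lt₀ hlam
    have hinv0 : 0 < ‖lam‖⁻¹ := by positivity
    have hκ1 : κ < 1 := by rw [hκ]; linarith
    have hκ0 : 0 < κ := by rw [hκ]; linarith
    have hgc : ∀ᶠ y in 𝓝 α, ‖g y - α‖ ≤ κ * ‖y - α‖ := by
      have h1 := hgd.hasDerivAt.isLittleO.def (show 0 < κ - ‖lam‖⁻¹ by rw [hκ]; linarith)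
      filter_upwards [h1] with y hy
      rw [hgα, smul_eq_mul] at hy
      have h2 : g y - α = (g y - α - (y - α) * lam⁻¹) + (y - α) * lam⁻¹ := by ring
      rw [h2]
      refine (norm_add_le _ _).trans ?_
      rw [norm_mul, norm_inv]
      nlinarith [hy]
    have hFb : ∀ᶠ y in 𝓝 α, ‖F y - α‖ ≤ μ * ‖y - α‖ := by
      have h1 := hF.hasDerivAt.isLittleO.def (show 0 < μ - ‖lam‖ by linarith)
      filter_upwards [h1] with y hy
      rw [hFα, smul_eq_mul] at hy
      have h2 : F y - α = (F y - α - (y - α) * lam) + (y - α) * lam := by ring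
      rw [h2]
      refine (norm_add_le _ _).trans ?_
      rw [norm_mul]
      nlinarith [hy]
    obtain ⟨ε, hε, hall⟩ := Metric.eventually_nhds_iff_ball.mp
      ((((hback.and hq).and (hg.and hgr)).and (hgc.and hFb)))
    set ε' := min ε 1 with hε'
    have hε'0 : 0 < ε' := lt_min hε one_pos
    have hall' : ∀ y ∈ ball α ε', (((F y ∈ B → y ∈ B) ∧ (y ∈ B → y ≠ α →
        ‖q (F y) - q y - Λ‖ ≤ C * ‖y - α‖ * (1 + ‖q y‖))) ∧
        ((y ∈ B → y ≠ α → ‖q y‖ ≤ A₀ * Real.log (1 / ‖y - α‖) + B₀) ∧ F (g y) = y)) ∧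
        (‖g y - α‖ ≤ κ * ‖y - α‖ ∧ ‖F y - α‖ ≤ μ * ‖y - α‖) := fun y hy =>
      hall y (ball_subset_ball (min_le_left _ _) hy)
    obtain ⟨b, hbB, hbα, hbε⟩ := hacc ε' hε'0
    have hb0 : 0 < ‖b - α‖ := norm_pos_iff.mpr (sub_ne_zero.mpr hbα)
    have hb1 : ‖b - α‖ < 1 := hbε.trans_le (min_le_right _ _)
    -- the backward orbit
    have horb : ∀ N : ℕ, g^[N] b ∈ ball α ε' ∧ g^[N] b ∈ B ∧ g^[N] b ≠ α ∧
        ‖g^[N] b - α‖ ≤ κ ^ N * ‖b - α‖ ∧ ‖b - α‖ ≤ μ ^ N * ‖g^[N] b - α‖ := by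
      intro N
      induction N with
      | zero =>
        refine ⟨by rw [Function.iterate_zero, id, mem_ball_iff_norm]; exact hbε, hbB, hbα, ?_, ?_⟩
        · simp
        · simp
      | succ N ih =>
        obtain ⟨i1, i2, i3, i4, i5⟩ := ih
        obtain ⟨⟨_, ⟨_, h4⟩⟩, ⟨h5, _⟩⟩ := hall' _ i1
        rw [Function.iterate_succ_apply']
        set y := g^[N] b with hy
        have hyε : ‖y - α‖ < ε' := by rwa [mem_ball_iff_norm] at i1
        have hgy : ‖g y - α‖ < ε' := by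
          refine lt_of_le_of_lt h5 ?_
          have := norm_nonneg (y - α)
          nlinarith
        have hgm : g y ∈ ball α ε' := by rwa [mem_ball_iff_norm]
        obtain ⟨⟨⟨k1, _⟩, _⟩, ⟨_, k6⟩⟩ := hall' _ hgm
        refine ⟨hgm, k1 (by rw [h4]; exact i2), ?_, ?_, ?_⟩
        · intro h
          apply i3
          rw [← h4, h, hFα]
        · refine h5.trans ?_
          rw [pow_succ, mul_comm (κ ^ N) κ, mul_assoc]
          exact mul_le_mul_of_nonneg_left i4 hκ0.le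
        · rw [h4] at k6
          refine i5.trans ?_
          rw [pow_succ, mul_assoc]
          exact mul_le_mul_of_nonneg_left k6 (by positivity)
    set L : ℝ := Real.log (1 / ‖b - α‖) with hL
    have hL0 : 0 ≤ L := by
      rw [hL]
      apply Real.log_nonneg
      rw [le_div_iff₀ hb0]
      linarith
    -- the size of `q` along the orbit
    have hsize : ∀ N : ℕ, ‖q (g^[N] b)‖ ≤ A₀ * (N * Real.log μ + L) + B₀ := by
      intro N
      obtain ⟨i1, i2, i3, i4, i5⟩ := horb N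
      obtain ⟨⟨_, ⟨h3, _⟩⟩, _⟩ := hall' _ i1
      refine (h3 i2 i3).trans ?_
      have hN0 : 0 < ‖g^[N] b - α‖ := norm_pos_iff.mpr (sub_ne_zero.mpr i3)
      have h4 : Real.log (1 / ‖g^[N] b - α‖) ≤ N * Real.log μ + L := by
        have h5 : 1 / ‖g^[N] b - α‖ ≤ μ ^ N * (1 / ‖b - α‖) := by
          rw [mul_one_div, div_le_div_iff₀ hN0 hb0, one_mul]
          exact i5
        refine (Real.log_le_log (by positivity) h5).trans (le_of_eq ?_)
        rw [Real.log_mul (by positivity) (by positivity), Real.log_pow]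
      gcongr
    -- the errors
    set s := √κ with hs
    have hs0 : 0 < s := Real.sqrt_pos.mpr hκ0
    have hs1 : s < 1 := by
      rw [hs, Real.sqrt_lt' one_pos]
      simpa using hκ1
    set E : ℝ := C * (1 + B₀ + 2 * A₀) with hE
    have hE0 : 0 ≤ E := by positivity
    have herr : ∀ N : ℕ, ‖q (g^[N] b) - q (g^[N + 1] b) - Λ‖ ≤ E * s ^ (N + 1) := by
      intro N
      obtain ⟨i1, _, _, _, _⟩ := horb N
      obtain ⟨⟨_, ⟨_, h4⟩⟩, _⟩ := hall' _ i1
      obtain ⟨j1, j2, j3, j4, _⟩ := horb (N + 1)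
      obtain ⟨⟨⟨_, m2⟩, ⟨m3, _⟩⟩, _⟩ := hall' _ j1
      have m2' := m2 j2 j3
      have m3' := m3 j2 j3
      set y := g^[N + 1] b with hy
      have hFy : F y = g^[N] b := by
        rw [hy, Function.iterate_succ_apply']
        exact h4
      rw [hFy] at m2'
      refine m2'.trans ?_
      have hy0 : 0 < ‖y - α‖ := norm_pos_iff.mpr (sub_ne_zero.mpr j3)
      have hyκ : ‖y - α‖ ≤ κ ^ (N + 1) := by
        refine j4.trans ?_
        have : (0 : ℝ) < κ ^ (N + 1) := by positivity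
        nlinarith
      have hy1 : ‖y - α‖ < 1 := by
        rw [mem_ball_iff_norm] at j1
        exact j1.trans_le (min_le_right _ _)
      have hsq : √‖y - α‖ ≤ s ^ (N + 1) := by
        rw [Real.sqrt_le_left (by positivity), ← pow_mul, mul_comm, pow_mul, hs,
          Real.sq_sqrt hκ0.le]
        exact hyκ
      have hxs : ‖y - α‖ ≤ √‖y - α‖ := by
        apply Real.le_sqrt_of_sq_le
        nlinarith
      have h5 := mul_log_le hy0 hy1
      have h6 : ‖y - α‖ * (1 + ‖q y‖) ≤ (1 + B₀ + 2 * A₀) * √‖y - α‖ := by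
        calc ‖y - α‖ * (1 + ‖q y‖) ≤
            ‖y - α‖ * (1 + (A₀ * Real.log (1 / ‖y - α‖) + B₀)) := by gcongr
          _ = (1 + B₀) * ‖y - α‖ + A₀ * (‖y - α‖ * Real.log (1 / ‖y - α‖)) := by ring
          _ ≤ (1 + B₀) * √‖y - α‖ + A₀ * (2 * √‖y - α‖) := by gcongr
          _ = _ := by ring
      calc C * ‖y - α‖ * (1 + ‖q y‖) = C * (‖y - α‖ * (1 + ‖q y‖)) := by ring
        _ ≤ C * ((1 + B₀ + 2 * A₀) * √‖y - α‖) := by gcongr
        _ ≤ C * ((1 + B₀ + 2 * A₀) * s ^ (N + 1)) := by gcongr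
        _ = E * s ^ (N + 1) := by rw [hE]; ring
    have hsum : ∀ N : ℕ, ‖q b - q (g^[N] b) - N * Λ‖ ≤ E * (1 / (1 - s)) := by
      have h1s : 0 < 1 - s := by linarith
      have h1 : ∀ N : ℕ, ‖q b - q (g^[N] b) - N * Λ‖ ≤ E * ((1 - s ^ N) / (1 - s)) := by
        intro N
        induction N with
        | zero => simp
        | succ N ih =>
          have e1 : q b - q (g^[N + 1] b) - ((N + 1 : ℕ) : ℂ) * Λ =
              (q b - q (g^[N] b) - N * Λ) + (q (g^[N] b) - q (g^[N + 1] b) - Λ) := by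
            push_cast; ring
          rw [e1]
          refine (norm_add_le _ _).trans ((add_le_add ih (herr N)).trans ?_)
          have e2 : s ^ (N + 1) ≤ s ^ N := pow_le_pow_of_le_one hs0.le hs1.le (Nat.le_succ N)
          have e3 : (1 - s ^ (N + 1)) / (1 - s) = (1 - s ^ N) / (1 - s) + s ^ N := by
            field_simp
            ring
          rw [e3]
          nlinarith
      intro N
      refine (h1 N).trans ?_
      have : (0 : ℝ) < s ^ N := by positivity
      gcongr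
      linarith
    -- the limit
    have hfin : ∀ N : ℕ, N * ‖Λ‖ ≤ N * (A₀ * Real.log μ) + (‖q b‖ + A₀ * L + B₀ + E * (1 / (1 - s))) := by
      intro N
      have h1 := hsum N
      have h2 := hsize N
      have h3 : (N : ℂ) * Λ = q b - q (g^[N] b) - (q b - q (g^[N] b) - N * Λ) := by ring
      have h4 : (N : ℝ) * ‖Λ‖ = ‖(N : ℂ) * Λ‖ := by rw [norm_mul, Complex.norm_natCast]
      rw [h4, h3]
      have h5 := norm_sub_le (q b - q (g^[N] b)) (q b - q (g^[N] b) - N * Λ)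
      have h6 := norm_sub_le (q b) (q (g^[N] b))
      linarith
    set D : ℝ := ‖q b‖ + A₀ * L + B₀ + E * (1 / (1 - s)) with hD
    by_contra hcon
    push Not at hcon
    obtain ⟨N, hN⟩ := exists_nat_gt (D / (‖Λ‖ - A₀ * Real.log μ))
    have h1 : 0 < ‖Λ‖ - A₀ * Real.log μ := by linarith
    rw [div_lt_iff₀ h1] at hN
    have := hfin N
    nlinarith
  have hc : Tendsto (fun μ : ℝ => A₀ * Real.log μ) (𝓝[>] ‖lam‖) (𝓝 (A₀ * Real.log ‖lam‖)) := by
    apply Tendsto.const_mul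
    apply Tendsto.mono_left _ nhdsWithin_le_nhds
    exact (Real.continuousAt_log hl0.ne').tendsto
  apply ge_of_tendsto hc
  filter_upwards [self_mem_nhdsWithin] with μ hμ using key μ hμ

end Pool.Agent.H46TP
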