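import Mathlib
import Pool.Agent.H46MB.Par
import Pool.Agent.H46TP.Fam2
import Pool.Agent.H46TP.Log

/-!
# Two holomorphically moving points of the filled Julia sets of `z ^ d + c`
-/

set_option autoImplicit false

open Complex Topology Filter Metric MeasureTheory Set Polynomial N62a1eb23

namespace Pool.Agent.H46TP

open Pool.Agent.H713R2 Pool.Agent.H712R2 Pool.Agent.H713R2.AR Pool.Agent.H548R3.MB
open Pool.Agent.H713R3.ZA (KJ)
open Pool.Agent.H46MB (mem_KK_iff mem_M_iff isCompact_KK P_mem_KK DD Hyp Hyp_nonempty)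

/-- the unicritical family as polynomials -/
noncomputable def pol (d : ℕ) (c : ℂ) : ℂ[X] := X ^ d + C c

theorem eval_pol (d : ℕ) (c : ℂ) : (fun w : ℂ => (pol d c).eval w) = fc d c := by
  funext w
  simp [pol, fc]

theorem KJ_pol (d : ℕ) (c : ℂ) : KJ (pol d c) = KK d c := by
  ext z
  have h1 : z ∈ KJ (pol d c) ↔
      ¬ Tendsto (fun k : ℕ => ‖(fun w : ℂ => (pol d c).eval w)^[k] z‖) atTop atTop := Iff.rfl
  rw [h1, eval_pol]
  have h2 : z ∈ KK d c ↔ ¬ Tendsto (fun k => (fc d c)^[k] z) atTop (Bornology.cobounded ℂ) := Iff.rfl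
  rw [h2, tendsto_norm_atTop_iff_cobounded]

theorem natDegree_pol {d : ℕ} (c : ℂ) : (pol d c).natDegree ≤ d := by
  unfold pol
  exact (natDegree_add_le _ _).trans (by simp)

theorem coeff_pol {d : ℕ} (c : ℂ) (j : ℕ) :
    (pol d c).coeff j = (if j = d then 1 else 0) + (if j = 0 then c else 0) := by
  unfold pol
  rw [coeff_add, coeff_X_pow, coeff_C]

theorem deriv_pol {d : ℕ} (c : ℂ) : derivative (pol d c) = C (d : ℂ) * X ^ (d - 1) := by
  unfold pol
  simp [derivative_X_pow]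

section
variable {d : ℕ} {γ : ℂ → ℂ}

/-- the data of the family -/
theorem fam_data (hd : 2 ≤ d) (hγ : DifferentiableOn ℂ γ (ball 0 1))
    (hγM : ∀ t ∈ ball (0 : ℂ) 1, γ t ∈ multibrotSet d) :
    (∀ t ∈ ball (0 : ℂ) 1, (pol d (γ t)).natDegree ≤ (d - 1) + 1) ∧
    (∀ t ∈ ball (0 : ℂ) 1, (pol d (γ t)).coeff ((d - 1) + 1) = 1) ∧
    (∀ t ∈ ball (0 : ℂ) 1, (pol d (γ t)).coeff (d - 1) = (pol d (γ 0)).coeff (d - 1)) ∧
    (∀ j : ℕ, DifferentiableOn ℂ (fun t => (pol d (γ t)).coeff j) (ball 0 1)) ∧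
    (∀ t ∈ ball (0 : ℂ) 1, ∀ c : ℂ, (derivative (pol d (γ t))).eval c = 0 →
      c ∈ KJ (pol d (γ t))) := by
  have hd1 : d - 1 + 1 = d := by omega
  refine ⟨?_, ?_, ?_, ?_, ?_⟩
  · intro t _
    rw [hd1]
    exact natDegree_pol _
  · intro t _
    rw [hd1, coeff_pol, if_pos rfl, if_neg (by omega), add_zero]
  · intro t _
    rw [coeff_pol, coeff_pol, if_neg (by omega), if_neg (by omega), if_neg (by omega)]
  · intro j
    simp only [coeff_pol]
    apply DifferentiableOn.const_add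
    by_cases hj : j = 0
    · simpa [hj] using hγ
    · simp only [hj, if_false]
      exact differentiableOn_const _
  · intro t ht c hc
    rw [deriv_pol, eval_mul, eval_C, eval_pow, eval_X, mul_eq_zero] at hc
    have hc0 : c = 0 := by
      rcases hc with h | h
      · exfalso
        have : (d : ℂ) ≠ 0 := by
          have : d ≠ 0 := by omega
          exact_mod_cast this
        exact this h
      · exact pow_eq_zero_iff (by omega) |>.mp h
    rw [hc0, KJ_pol]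
    exact hγM t ht

/-- **The relative speed of two holomorphically moving points of the filled Julia sets.** -/
theorem two_K (hd : 2 ≤ d) (hγ : DifferentiableOn ℂ γ (ball 0 1))
    (hγM : ∀ t ∈ ball (0 : ℂ) 1, γ t ∈ multibrotSet d) {ζ η : ℂ → ℂ}
    (hζ : DifferentiableOn ℂ ζ (ball 0 1)) (hη : DifferentiableOn ℂ η (ball 0 1))
    (hK : ∀ t ∈ ball (0 : ℂ) 1, ζ t ∈ KK d (γ t)) (hK' : ∀ t ∈ ball (0 : ℂ) 1, η t ∈ KK d (γ t))
    (hne : ∀ t ∈ ball (0 : ℂ) 1, ζ t ≠ η t) :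
    ‖deriv ζ 0 - deriv η 0‖ ≤
      ‖ζ 0 - η 0‖ * (1 / Real.pi * ∫ z in KK d (γ 0), (‖z - ζ 0‖ * ‖z - η 0‖)⁻¹) := by
  have hpi := Real.pi_pos
  obtain ⟨h1, h2, h3, h4, h5⟩ := fam_data hd hγ hγM
  have h := family_two (n := d - 1) (by omega) one_ne_zero h1 h2 h3 h4 h5 hζ hη
    (fun t ht => by rw [KJ_pol]; exact hK t ht) (fun t ht => by rw [KJ_pol]; exact hK' t ht) hne
  rw [KJ_pol] at h
  rw [← mul_assoc, mul_comm ‖ζ 0 - η 0‖, mul_assoc, one_div, ← div_eq_inv_mul, le_div_iff₀ hpi,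
    mul_comm]
  exact h

end

theorem kernel_le {d : ℕ} (hd : 2 ≤ d) (c : ℂ) {a b : ℂ} (hab : a ≠ b) :
    1 / Real.pi * ∫ z in KK d c, (‖z - a‖ * ‖z - b‖)⁻¹ ≤
      4 + Real.log (1 + 4 * (volume (KK d c)).toReal / (Real.pi * ‖a - b‖ ^ 2)) := by
  have hpi := Real.pi_pos
  rw [← TT_toReal]
  have h1 := TT_le (isCompact_KK hd c) hab
  have hδ0 : 0 < ‖a - b‖ := norm_pos_iff.mpr (sub_ne_zero.mpr hab)
  have hL : 0 ≤ Real.log (1 + 4 * (volume (KK d c)).toReal / (Real.pi * ‖a - b‖ ^ 2)) :=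
    Real.log_nonneg (by
      have : 0 ≤ 4 * (volume (KK d c)).toReal / (Real.pi * ‖a - b‖ ^ 2) := by positivity
      linarith)
  have h2 := ENNReal.toReal_mono ENNReal.ofReal_ne_top h1
  rw [ENNReal.toReal_ofReal (by positivity)] at h2
  rw [one_div, ← div_eq_inv_mul, div_le_iff₀ hpi, mul_comm]
  exact h2

/-- The critical point and the points of its orbit, for holomorphic discs of parameters. -/
theorem disc_newton {d : ℕ} (hd : 2 ≤ d) {γ : ℂ → ℂ} (hγ : DifferentiableOn ℂ γ (ball 0 1))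
    (hγM : ∀ t ∈ ball (0 : ℂ) 1, γ t ∈ multibrotSet d) (n : ℕ)
    (hne : ∀ t ∈ ball (0 : ℂ) 1, P d (n + 1) (γ t) ≠ 0) :
    ‖DD d n (γ 0)‖ * ‖deriv γ 0‖ ≤ ‖P d (n + 1) (γ 0)‖ *
      (1 / Real.pi * ∫ z in KK d (γ 0), (‖z‖ * ‖z - P d (n + 1) (γ 0)‖)⁻¹) := by
  have h1 := two_K hd hγ hγM (ζ := fun _ => 0) (η := fun t => P d (n + 1) (γ t))
    (differentiableOn_const _)
    ((differentiable_P d (n + 1)).comp_differentiableOn hγ) (fun t ht => hγM t ht)
    (fun t ht => P_mem_KK hd (hγM t ht) n) (fun t ht => (hne t ht).symm)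
  have h2 : deriv (fun t => P d (n + 1) (γ t)) 0 = DD d n (γ 0) * deriv γ 0 := by
    have h3 : HasDerivAt γ (deriv γ 0) 0 :=
      (hγ.differentiableAt (ball_mem_nhds 0 one_pos)).hasDerivAt
    exact ((differentiable_P d (n + 1) (γ 0)).hasDerivAt.comp 0 h3).deriv
  rw [h2, deriv_const, zero_sub, norm_neg, norm_mul, zero_sub, norm_neg] at h1
  simpa using h1

/-- **The distance to hyperbolicity against the Newton steps.** -/
theorem dist_newton {d : ℕ} (hd : 2 ≤ d) {c : ℂ} (hc : c ∈ multibrotSet d) (n : ℕ) :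
    ‖DD d n c‖ * infDist c (Hyp d) ≤ ‖P d (n + 1) c‖ *
      (1 / Real.pi * ∫ z in KK d c, (‖z‖ * ‖z - P d (n + 1) c‖)⁻¹) := by
  set r : ℝ := infDist c (Hyp d) with hr
  rcases (infDist_nonneg (x := c) (s := Hyp d)).eq_or_lt with h0 | h0
  · rw [← hr] at h0
    rw [← h0, mul_zero]
    have hpi := Real.pi_pos
    apply mul_nonneg (norm_nonneg _)
    apply mul_nonneg (by positivity)
    apply integral_nonneg; intro z; positivity
  rw [← hr] at h0
  have hno : ∀ c' ∈ ball c r, ¬ ∃ m z, IsAttractingCycle (fun z : ℂ => z ^ d + c') m z := by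
    intro c' hc' h
    have h1 : r ≤ dist c c' := infDist_le_dist_of_mem (s := Hyp d) h
    rw [mem_ball, dist_comm] at hc'
    linarith
  have hsub := ball_subset hd h0 hc hno
  have hder : deriv (fun t : ℂ => c + r * t) 0 = r := by
    have h4 : HasDerivAt (fun t : ℂ => c + (r : ℂ) * t) r 0 := by
      simpa using ((hasDerivAt_id (0 : ℂ)).const_mul (r : ℂ)).const_add c
    exact h4.deriv
  have hball : ∀ t ∈ ball (0 : ℂ) 1, c + r * t ∈ ball c r := by
    intro t ht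
    rw [mem_ball_zero_iff] at ht
    rw [mem_ball_iff_norm, add_sub_cancel_left, norm_mul, Complex.norm_real, Real.norm_eq_abs,
      abs_of_pos h0]
    nlinarith
  have h1 := disc_newton hd (γ := fun t : ℂ => c + r * t) (by fun_prop)
    (fun t ht => hsub (hball t ht)) n (fun t ht hcon => by
      apply hno _ (hball t ht)
      exact ⟨n + 1, 0, att_of_centre hd (by omega) hcon⟩)
  rw [hder, Complex.norm_real, Real.norm_eq_abs, abs_of_pos h0] at h1
  simp only [mul_zero, add_zero] at h1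
  exact h1

end Pool.Agent.H46TP
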