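import Mathlib
import Pool.Agent.H46TP.Ext2
import Pool.Agent.H46TP.Uni

/-!
# The vector field on the Julia sets of `z ^ d + c`
-/

set_option autoImplicit false

open Complex Topology Filter Metric MeasureTheory Set Polynomial N62a1eb23

namespace Pool.Agent.H46TP

open Pool.Agent.H713R2 Pool.Agent.H712R2 Pool.Agent.H713R2.AR Pool.Agent.H548R3.MB
open Pool.Agent.H713R3.ZA (KJ)
open Pool.Agent.H69N.LA (fv fv_differentiable WU FA BU)
open Pool.Agent.H46MB (mem_KK_iff mem_M_iff isCompact_KK P_mem_KK DD Hyp Hyp_nonempty)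

/-- the boundary points of the filled Julia set -/
def bj (d : ℕ) (c : ℂ) : Set ℂ := KK d c ∩ closure (KK d c)ᶜ

section
variable {d : ℕ} {γ : ℂ → ℂ}

theorem fv_pol (t w : ℂ) : fv (fun t => pol d (γ t)) t w = w ^ d + γ t := by
  simp [fv, pol]

/-- **The vector field on the boundary of the filled Julia set.** -/
theorem exists_W (hd : 2 ≤ d) (hγ : DifferentiableOn ℂ γ (ball 0 1))
    (hγM : ∀ t ∈ ball (0 : ℂ) 1, γ t ∈ multibrotSet d) {ρ : ℝ} (hρ : 0 < ρ) (hρ1 : ρ < 1) :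
    ∃ W : ℂ → ℂ,
      (∀ a ∈ bj d (γ 0), a ^ d + γ 0 ∈ bj d (γ 0) ∧
        W (a ^ d + γ 0) = d * a ^ (d - 1) * W a + deriv γ 0) ∧
      ∀ a ∈ bj d (γ 0), ∀ b ∈ bj d (γ 0), a ≠ b →
        Real.pi * ρ * ‖W a - W b‖ ≤ ‖a - b‖ * (TT (KK d (γ 0)) a b).toReal := by
  obtain ⟨h1, h2, h3, h4, h5⟩ := fam_data hd hγ hγM
  obtain ⟨A, hf⟩ := exists_FA (n := d - 1) (f := fun t => pol d (γ t)) (by omega) one_ne_zero
    h1 h2 h3 h4 h5 ρ hρ hρ1
  obtain ⟨R, C₁, R₁, R₃, ψ, φ, hb⟩ := hf.exists_boett Pool.Agent.H713R3.ZA.bsum_holds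
    Pool.Agent.H713R3.ZA.inv_holds
  obtain ⟨Φ, h⟩ := exists_MF hf hb
  obtain ⟨W, hW⟩ := h.exists_lim
  set f : ℂ → ℂ[X] := fun t => pol d (γ t) with hfdef
  have hK : KJ (f 0) = KK d (γ 0) := KJ_pol d (γ 0)
  have hBJ : BJ f = bj d (γ 0) := by
    unfold BJ bj
    rw [hK]
  have h0ρ : (0 : ℂ) ∈ ball (0 : ℂ) ρ := mem_ball_self hρ
  have hγd : HasDerivAt γ (deriv γ 0) 0 :=
    (hγ.differentiableAt (ball_mem_nhds 0 one_pos)).hasDerivAt
  -- the functional equation outside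
  have hout : ∀ z ∉ KJ (f 0), VF f R₃ Φ (z ^ d + γ 0) =
      d * z ^ (d - 1) * VF f R₃ Φ z + deriv γ 0 := by
    intro z hz
    obtain ⟨N, hN⟩ := (h.union z).mp hz
    have hN' : z ∈ WU f R₃ (N + 1) := h.mono (Nat.le_succ N) hN
    have hN2 : fv f 0 z ∈ WU f R₃ N := by
      have e1 : R₃ < ‖(fv f 0)^[N + 1] z‖ := hN'
      rwa [Function.iterate_succ_apply] at e1
    have e1 := h.hasDerivAt hN'
    have e2 := h.hasDerivAt hN2
    have e3 : HasDerivAt (fun t => Φ (N + 1) t z ^ d + γ t)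
        (d * z ^ (d - 1) * VF f R₃ Φ z + deriv γ 0) 0 := by
      have e4 := (e1.fun_pow d).add hγd
      rw [(h.mv (N + 1)).H0 z hN'] at e4
      exact e4
    have e4 : HasDerivAt (fun t => Φ (N + 1) t z ^ d + γ t) (VF f R₃ Φ (fv f 0 z)) 0 := by
      apply e2.congr_of_eventuallyEq
      filter_upwards [isOpen_ball.mem_nhds h0ρ] with t ht
      have := h.eq N z hN' t ht
      rw [fv_pol] at this
      exact this
    rw [fv_pol] at e4
    exact e4.unique e3
  have hstep : ∀ a ∈ BJ f, Tendsto (fun z : ℂ => z ^ d + γ 0) (𝓝[SS f R₃] a)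
      (𝓝[SS f R₃] (a ^ d + γ 0)) := by
    intro a ha
    apply tendsto_nhdsWithin_iff.mpr
    constructor
    · apply Tendsto.mono_left _ nhdsWithin_le_nhds
      exact Continuous.tendsto (by fun_prop) a
    · have e1 := (h.near ha.1 1).filter_mono (nhdsWithin_le_nhds (s := SS f R₃))
      filter_upwards [e1, self_mem_nhdsWithin] with z hz1 hz2
      refine ⟨?_, ?_⟩
      · rw [mem_compl_iff, ← fv_pol (d := d) (γ := γ) 0 z, h.mem_iff]
        exact hz2.1
      · rw [mem_closedBall_zero_iff, ← fv_pol (d := d) (γ := γ) 0 z]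
        exact hz1.le
  have hmemBJ : ∀ a ∈ BJ f, a ^ d + γ 0 ∈ BJ f := by
    intro a ha
    refine ⟨?_, ?_⟩
    · rw [← fv_pol (d := d) (γ := γ) 0 a, h.mem_iff]
      exact ha.1
    · have := h.neBot ha
      have e1 : Tendsto (fun z : ℂ => z ^ d + γ 0) (𝓝[SS f R₃] a) (𝓝 (a ^ d + γ 0)) :=
        (hstep a ha).mono_right nhdsWithin_le_nhds
      apply mem_closure_of_tendsto e1
      filter_upwards [self_mem_nhdsWithin] with z hz
      rw [mem_compl_iff, ← fv_pol (d := d) (γ := γ) 0 z, h.mem_iff]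
      exact hz.1
  refine ⟨W, ?_, ?_⟩
  · intro a ha
    rw [← hBJ] at ha ⊢
    refine ⟨hmemBJ a ha, ?_⟩
    have := h.neBot ha
    have e1 := (hW _ (hmemBJ a ha)).comp (hstep a ha)
    have e2 : Tendsto (fun z : ℂ => d * z ^ (d - 1) * VF f R₃ Φ z + deriv γ 0) (𝓝[SS f R₃] a)
        (𝓝 (d * a ^ (d - 1) * W a + deriv γ 0)) := by
      apply Tendsto.add_const
      apply Tendsto.mul _ (hW a ha)
      apply Tendsto.mono_left _ nhdsWithin_le_nhds
      exact Continuous.tendsto (by fun_prop) a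
    apply tendsto_nhds_unique e1
    refine e2.congr' ?_
    filter_upwards [self_mem_nhdsWithin] with z hz
    exact (hout z hz.1).symm
  · intro a ha b hb' hab
    rw [← hBJ] at ha hb'
    rw [← hK]
    exact h.two_bd hW ha hb' hab

end

end Pool.Agent.H46TP
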