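import Mathlib
import Pool.Agent.H46TP.Mul

/-!
# Difference quotients along orbits
-/

set_option autoImplicit false

open Complex Topology Filter Metric MeasureTheory Set

namespace Pool.Agent.H46TP

/-- the difference quotient of `z ^ d` -/
noncomputable def dq (d : ℕ) (a y : ℂ) : ℂ := ∑ i ∈ Finset.range d, y ^ i * a ^ (d - 1 - i)

theorem dq_mul (d : ℕ) (a y : ℂ) : dq d a y * (y - a) = y ^ d - a ^ d :=
  geom_sum₂_mul y a d

theorem dq_self (d : ℕ) (a : ℂ) : dq d a a = d * a ^ (d - 1) := by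
  unfold dq
  have : ∀ i ∈ Finset.range d, a ^ i * a ^ (d - 1 - i) = a ^ (d - 1) := by
    intro i hi
    rw [Finset.mem_range] at hi
    rw [← pow_add]
    congr 1
    omega
  rw [Finset.sum_congr rfl this, Finset.sum_const, Finset.card_range, nsmul_eq_mul]

theorem dq_diff (d : ℕ) (a : ℂ) : Differentiable ℂ (dq d a) := by
  unfold dq
  fun_prop

/-- The change of the difference quotient of the vector field under one step of the dynamics. -/
theorem one_step {d : ℕ} (hd : 2 ≤ d) {a : ℂ} (ha : a ≠ 0) : ∃ C : ℝ, 0 ≤ C ∧ ∀ᶠ y in 𝓝 a, y ≠ a →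
    y ^ d ≠ a ^ d ∧ ∀ va vy g : ℂ,
      ‖((d * y ^ (d - 1) * vy + g) - (d * a ^ (d - 1) * va + g)) / (y ^ d - a ^ d) -
        (vy - va) / (y - a) - (d - 1) * (va / a)‖ ≤
      C * ‖y - a‖ * (‖(vy - va) / (y - a)‖ + ‖va‖) := by
  have hd0 : (d : ℂ) ≠ 0 := by
    have : d ≠ 0 := by omega
    exact_mod_cast this
  have hDa : dq d a a ≠ 0 := by
    rw [dq_self]
    exact mul_ne_zero hd0 (pow_ne_zero _ ha)
  set g1 : ℂ → ℂ := fun y => d * y ^ (d - 1) / dq d a y - 1 with hg1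
  set g2 : ℂ → ℂ := fun y => d * dq (d - 1) a y / dq d a y - (d - 1) / a with hg2
  have h1 : DifferentiableAt ℂ g1 a :=
    (DifferentiableAt.div (by fun_prop) (dq_diff d a a) hDa).sub_const _
  have h2 : DifferentiableAt ℂ g2 a :=
    (DifferentiableAt.div ((dq_diff (d - 1) a a).const_mul _) (dq_diff d a a) hDa).sub_const _
  have e1 : g1 a = 0 := by
    simp only [hg1]
    rw [dq_self, div_self (mul_ne_zero hd0 (pow_ne_zero _ ha)), sub_self]
  have e2 : g2 a = 0 := by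
    simp only [hg2]
    rw [dq_self, dq_self, sub_eq_zero, div_eq_div_iff (mul_ne_zero hd0 (pow_ne_zero _ ha)) ha]
    obtain ⟨k, rfl⟩ : ∃ k, d = k + 2 := ⟨d - 2, by omega⟩
    have e3 : k + 2 - 1 = k + 1 := by omega
    have e4 : k + 1 - 1 = k := by omega
    rw [e3, e4]
    push_cast
    ring
  obtain ⟨C₁, hC₁⟩ := h1.isBigO_sub.bound
  obtain ⟨C₂, hC₂⟩ := h2.isBigO_sub.bound
  have hne : ∀ᶠ y in 𝓝 a, dq d a y ≠ 0 :=
    ((dq_diff d a a).continuousAt).eventually_ne hDa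
  refine ⟨max 0 (max C₁ C₂), le_max_left _ _, ?_⟩
  filter_upwards [hC₁, hC₂, hne] with y k1 k2 k3 hya
  rw [e1, sub_zero] at k1
  rw [e2, sub_zero] at k2
  have hya' : y - a ≠ 0 := sub_ne_zero.mpr hya
  refine ⟨?_, ?_⟩
  · rw [Ne, ← sub_eq_zero, ← dq_mul, mul_eq_zero, not_or]
    exact ⟨k3, hya'⟩
  intro va vy g
  set q : ℂ := (vy - va) / (y - a) with hq
  have hvy : vy = va + q * (y - a) := by
    rw [hq, div_mul_cancel₀ _ hya']; ring
  have hkey : ((d * y ^ (d - 1) * vy + g) - (d * a ^ (d - 1) * va + g)) / (y ^ d - a ^ d) -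
      q - (d - 1) * (va / a) = g1 y * q + g2 y * va := by
    have e5 := dq_mul (d - 1) a y
    have e6 : ((d * y ^ (d - 1) * vy + g) - (d * a ^ (d - 1) * va + g)) =
        (d * y ^ (d - 1) * q + d * dq (d - 1) a y * va) * (y - a) := by
      rw [hvy]
      linear_combination (-(d : ℂ) * va) * e5
    rw [e6, ← dq_mul d a y, mul_div_mul_right _ _ hya']
    simp only [hg1, hg2]
    field_simp
    ring
  rw [hkey]
  have hy0 := norm_nonneg (y - a)
  have hC1 : ‖g1 y‖ ≤ max 0 (max C₁ C₂) * ‖y - a‖ := k1.trans (by gcongr; simp)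
  have hC2 : ‖g2 y‖ ≤ max 0 (max C₁ C₂) * ‖y - a‖ := k2.trans (by gcongr; simp)
  calc ‖g1 y * q + g2 y * va‖ ≤ ‖g1 y‖ * ‖q‖ + ‖g2 y‖ * ‖va‖ := by
        refine (norm_add_le _ _).trans ?_
        rw [norm_mul, norm_mul]
    _ ≤ (max 0 (max C₁ C₂) * ‖y - a‖) * ‖q‖ + (max 0 (max C₁ C₂) * ‖y - a‖) * ‖va‖ := by
        gcongr
    _ = _ := by ring

open Pool.Agent.H712R2 (fc)

/-- the difference quotient at the point `f^j(a)` -/
noncomputable def qq (d : ℕ) (c : ℂ) (W : ℂ → ℂ) (a : ℂ) (j : ℕ) (y : ℂ) : ℂ :=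
  (W y - W ((fc d c)^[j] a)) / (y - (fc d c)^[j] a)

theorem fc_diff (d : ℕ) (c : ℂ) (k : ℕ) : Differentiable ℂ (fc d c)^[k] :=
  (by unfold fc; fun_prop : Differentiable ℂ (fc d c)).iterate k

/-- The change of the difference quotient under several steps. -/
theorem steps {d : ℕ} (hd : 2 ≤ d) {c g : ℂ} {B : Set ℂ} {W : ℂ → ℂ}
    (hW : ∀ a ∈ B, a ^ d + c ∈ B ∧ W (a ^ d + c) = d * a ^ (d - 1) * W a + g)
    {a : ℂ} (ha : a ∈ B) (hne : ∀ j, (fc d c)^[j] a ≠ 0) (j : ℕ) :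
    ∃ C : ℝ, 0 ≤ C ∧ ∀ᶠ y in 𝓝 a, y ∈ B → y ≠ a → (fc d c)^[j] y ≠ (fc d c)^[j] a ∧
      ‖qq d c W a j ((fc d c)^[j] y) - qq d c W a 0 y -
        ∑ i ∈ Finset.range j, (d - 1) * (W ((fc d c)^[i] a) / (fc d c)^[i] a)‖ ≤
      C * ‖y - a‖ * (1 + ‖qq d c W a 0 y‖) := by
  have hB : ∀ k, ∀ y ∈ B, (fc d c)^[k] y ∈ B := by
    intro k y hy
    induction k with
    | zero => exact hy
    | succ k ih =>
      rw [Function.iterate_succ_apply']
      exact (hW _ ih).1
  induction j with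
  | zero =>
    refine ⟨0, le_rfl, ?_⟩
    filter_upwards with y hy hya
    refine ⟨hya, ?_⟩
    simp
  | succ j ih =>
    obtain ⟨C, hC, h1⟩ := ih
    obtain ⟨C', hC', h2⟩ := one_step hd (hne j)
    set b := (fc d c)^[j] a with hb
    set S := ∑ i ∈ Finset.range j, ((d : ℂ) - 1) * (W ((fc d c)^[i] a) / (fc d c)^[i] a) with hS
    have hcont : Tendsto (fc d c)^[j] (𝓝 a) (𝓝 b) := (fc_diff d c j).continuous.tendsto a
    obtain ⟨L, hL⟩ := (fc_diff d c j a).isBigO_sub.bound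
    set L' := max L 0 with hL'
    refine ⟨C + C' * L' * (1 + ‖S‖ + C + ‖W b‖), by positivity, ?_⟩
    have hball : ∀ᶠ y in 𝓝 a, ‖y - a‖ < 1 := by
      have := Metric.ball_mem_nhds a (one_pos : (0 : ℝ) < 1)
      filter_upwards [this] with y hy
      rwa [mem_ball_iff_norm] at hy
    filter_upwards [h1, hcont.eventually h2, hL, hball] with y k1 k2 k3 k4 hy hya
    obtain ⟨m1, m2⟩ := k1 hy hya
    obtain ⟨m3, m4⟩ := k2 m1
    set x := (fc d c)^[j] y with hx
    have hxB : x ∈ B := hB j y hy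
    have hbB : b ∈ B := hB j a ha
    have hfx : (fc d c)^[j + 1] y = x ^ d + c := by
      rw [Function.iterate_succ_apply']; rfl
    have hfb : (fc d c)^[j + 1] a = b ^ d + c := by
      rw [Function.iterate_succ_apply']; rfl
    refine ⟨?_, ?_⟩
    · rw [hfx, hfb]
      intro h
      exact m3 (add_right_cancel h)
    set q0 := qq d c W a 0 y with hq0
    have hqj : qq d c W a j x = (W x - W b) / (x - b) := rfl
    have hqs : qq d c W a (j + 1) ((fc d c)^[j + 1] y) =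
        ((d * x ^ (d - 1) * W x + g) - (d * b ^ (d - 1) * W b + g)) / (x ^ d - b ^ d) := by
      unfold qq
      have e0 : x ^ d + c - (b ^ d + c) = x ^ d - b ^ d := by ring
      rw [hfx, hfb, (hW x hxB).2, (hW b hbB).2, e0]
    have m5 := m4 (W b) (W x) g
    rw [← hqs, ← hqj] at m5
    rw [Finset.sum_range_succ]
    have e1 : qq d c W a (j + 1) ((fc d c)^[j + 1] y) - q0 - (S + (d - 1) * (W b / b)) =
        (qq d c W a (j + 1) ((fc d c)^[j + 1] y) - qq d c W a j x - (d - 1) * (W b / b)) +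
        (qq d c W a j x - q0 - S) := by ring
    rw [e1]
    have hy0 := norm_nonneg (y - a)
    have hq00 := norm_nonneg q0
    have e2 : ‖qq d c W a j x‖ ≤ ‖q0‖ + ‖S‖ + C * (1 + ‖q0‖) := by
      have e3 : qq d c W a j x = (qq d c W a j x - q0 - S) + (q0 + S) := by ring
      rw [e3]
      refine (norm_add_le _ _).trans ?_
      have e4 := norm_add_le q0 S
      have e5 : C * ‖y - a‖ * (1 + ‖q0‖) ≤ C * (1 + ‖q0‖) := by
        have : C * ‖y - a‖ ≤ C := by nlinarith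
        nlinarith
      linarith
    have e6 : ‖x - b‖ ≤ L' * ‖y - a‖ := by
      refine k3.trans ?_
      gcongr
      exact le_max_left _ _
    have hS0 := norm_nonneg S
    have hW0 := norm_nonneg (W b)
    have e7 : ‖qq d c W a j x‖ + ‖W b‖ ≤ (1 + ‖S‖ + C + ‖W b‖) * (1 + ‖q0‖) := by
      nlinarith [mul_nonneg hS0 hq00, mul_nonneg hW0 hq00]
    calc ‖(qq d c W a (j + 1) ((fc d c)^[j + 1] y) - qq d c W a j x - (d - 1) * (W b / b)) +
        (qq d c W a j x - q0 - S)‖ ≤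
        C' * ‖x - b‖ * (‖qq d c W a j x‖ + ‖W b‖) + C * ‖y - a‖ * (1 + ‖q0‖) :=
          (norm_add_le _ _).trans (add_le_add m5 m2)
      _ ≤ C' * (L' * ‖y - a‖) * ((1 + ‖S‖ + C + ‖W b‖) * (1 + ‖q0‖)) +
          C * ‖y - a‖ * (1 + ‖q0‖) := by
          gcongr
      _ = _ := by ring

end Pool.Agent.H46TP
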