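import Mathlib
import Pool.Agent.H46TP.Loc
import Pool.Agent.H46TP.Grow

/-!
# Repelling periodic points of `z ^ d + c`
-/

set_option autoImplicit false

open Complex Topology Filter Metric MeasureTheory Set N62a1eb23

namespace Pool.Agent.H46TP

open Pool.Agent.H713R2 Pool.Agent.H712R2 Pool.Agent.H713R2.AR Pool.Agent.H548R3.MB
open Pool.Agent.H46MB (mem_KK_iff not_mem_KK_iff mem_M_iff isCompact_KK green_iter exists_A)

theorem mem_KK_iter {d : ℕ} (hd : 2 ≤ d) (c z : ℂ) (n : ℕ) :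
    (fc d c)^[n] z ∈ KK d c ↔ z ∈ KK d c := by
  rw [mem_KK_iff hd, mem_KK_iff hd, green_iter hd]
  have h0 : (0 : ℝ) < (d : ℝ) ^ n := by
    have : (0 : ℝ) < d := by exact_mod_cast (by omega : 0 < d)
    positivity
  constructor
  · intro h
    by_contra hcon
    push Not at hcon
    have := mul_pos h0 hcon
    linarith
  · intro h
    exact mul_nonpos_of_nonneg_of_nonpos h0.le h

theorem per_mem {d : ℕ} (hd : 2 ≤ d) {c α : ℂ} {p : ℕ} (hp : 0 < p)
    (h : (fc d c)^[p] α = α) : α ∈ KK d c := by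
  rw [mem_KK_iff hd]
  have h1 := green_iter hd c α p
  rw [h] at h1
  have h2 : (1 : ℝ) < (d : ℝ) ^ p := one_lt_pow₀ (by exact_mod_cast (by omega : 1 < d)) hp.ne'
  nlinarith [green_nonneg hd c α]

theorem exists_bound {d : ℕ} (hd : 2 ≤ d) (c : ℂ) : ∃ R : ℝ, 0 < R ∧ ∀ z ∈ KK d c, ‖z‖ ≤ R := by
  obtain ⟨R, hR⟩ := (isCompact_KK hd c).isBounded.exists_norm_le
  exact ⟨max R 1, by positivity, fun z hz => (hR z hz).trans (le_max_left _ _)⟩

theorem per_bj {d : ℕ} (hd : 2 ≤ d) {c α : ℂ} {p : ℕ} (hp : 0 < p) (h : (fc d c)^[p] α = α)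
    (hl : 1 < ‖deriv (fc d c)^[p] α‖) : α ∈ bj d c := by
  refine ⟨per_mem hd hp h, ?_⟩
  by_contra hcon
  rw [closure_compl, mem_compl_iff, not_not] at hcon
  have h1 : KK d c ∈ 𝓝 α := mem_interior_iff_mem_nhds.mp hcon
  obtain ⟨r, hr, hsub⟩ := Metric.mem_nhds_iff.mp h1
  obtain ⟨R, hR0, hR⟩ := exists_bound hd c
  have h2 : ∀ n : ℕ, ‖deriv ((fc d c)^[p])^[n] α‖ ≤ R / (r / 2) := by
    intro n
    apply norm_deriv_le_of_forall_mem_sphere_norm_le (half_pos hr)
    · exact ((fc_diff d c p).iterate n).diffContOnCl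
    · intro z hz
      apply hR
      rw [← Function.iterate_mul, mem_KK_iter hd]
      apply hsub
      rw [mem_sphere_iff_norm] at hz
      rw [mem_ball_iff_norm, hz]
      linarith
  have h3 : ∀ n : ℕ, deriv ((fc d c)^[p])^[n] α = (deriv (fc d c)^[p] α) ^ n := fun n =>
    (((fc_diff d c p) α).hasDerivAt.iterate α h n).deriv
  have h4 : Tendsto (fun n : ℕ => ‖deriv (fc d c)^[p] α‖ ^ n) atTop atTop :=
    tendsto_pow_atTop_atTop_of_one_lt hl
  obtain ⟨n, hn⟩ := (h4.eventually (eventually_gt_atTop (R / (r / 2)))).exists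
  have h5 := h2 n
  rw [h3, norm_pow] at h5
  linarith

theorem iter_ge {d : ℕ} (hd : 2 ≤ d) {A : ℝ} (hA : 1 ≤ A) {c : ℂ} (hc : ‖c‖ ≤ A) (z : ℂ) (k : ℕ) :
    (d : ℝ) ^ k * green d c z - Real.log (2 * A) ≤ ‖(fc d c)^[k] z‖ := by
  have hdR : (2 : ℝ) ≤ d := by exact_mod_cast hd
  have h2 := (abs_le.mp (green_near hd hA hc z k)).2
  unfold gap at h2
  have hdk : (0 : ℝ) < (d : ℝ) ^ k := by positivity
  have h3 : (d : ℝ) ^ k * green d c z ≤ Real.posLog ‖(fc d c)^[k] z‖ + Real.log (2 * A) := by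
    have h4 : green d c z ≤ (Real.posLog ‖(fc d c)^[k] z‖ + Real.log (2 * A)) / (d : ℝ) ^ k := by
      rw [add_div]; linarith
    rw [le_div_iff₀ hdk] at h4
    linarith
  have h5 : Real.posLog ‖(fc d c)^[k] z‖ ≤ ‖(fc d c)^[k] z‖ := by
    rw [Real.posLog]
    apply max_le (norm_nonneg _)
    exact Real.log_le_self (norm_nonneg _)
  linarith

/-- points of the filled Julia set accumulate -/
theorem acc_K {d : ℕ} (hd : 2 ≤ d) {c α : ℂ} (hc : c ∈ multibrotSet d) (hα : α ∈ KK d c)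
    (hne : ∀ j, (fc d c)^[j] α ≠ 0) {ε : ℝ} (hε : 0 < ε) :
    ∃ k ∈ KK d c, k ≠ α ∧ ‖k - α‖ < ε := by
  by_contra hcon
  push Not at hcon
  obtain ⟨A, hA1, hA2⟩ := exists_A c
  obtain ⟨R, hR0, hR⟩ := exists_bound hd c
  have hdR : (2 : ℝ) ≤ d := by exact_mod_cast hd
  set r : ℝ := ε / 2 with hr
  have hr0 : 0 < r := by positivity
  have h0K : (0 : ℂ) ∈ KK d c := hc
  have hsph : ∀ z ∈ sphere α r, 0 < green d c z := by
    intro z hz
    rw [← not_mem_KK_iff hd]
    intro hzK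
    rw [mem_sphere_iff_norm] at hz
    have hzα : z ≠ α := by
      rintro rfl
      rw [sub_self, norm_zero] at hz
      linarith
    have := hcon z hzK hzα
    linarith
  have hsn : (sphere α r).Nonempty := NormedSpace.sphere_nonempty.mpr hr0.le
  obtain ⟨z₀, hz₀, hmin⟩ := (isCompact_sphere α r).exists_isMinOn hsn
    (continuous_green hd c).continuousOn
  have hm := hsph z₀ hz₀
  set m := green d c z₀ with hmdef
  have h1 : Tendsto (fun n : ℕ => (d : ℝ) ^ n * m - Real.log (2 * A)) atTop atTop := by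
    apply tendsto_atTop_add_const_right
    exact (tendsto_pow_atTop_atTop_of_one_lt (by linarith)).atTop_mul_const hm
  obtain ⟨n, hn⟩ := (h1.eventually (eventually_gt_atTop R)).exists
  set R' := (d : ℝ) ^ n * m - Real.log (2 * A) with hR'
  have hR'0 : 0 < R' := by linarith
  have hnz : ∀ z ∈ closedBall α r, (fc d c)^[n] z ≠ 0 := by
    intro z hz h0
    have hzK : z ∈ KK d c := by
      rw [← mem_KK_iter hd c z n, h0]
      exact h0K
    by_cases hzα : z = α
    · rw [hzα] at h0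
      exact hne n h0
    · have := hcon z hzK hzα
      rw [mem_closedBall_iff_norm] at hz
      linarith
  have hd1 : DiffContOnCl ℂ (fun z => ((fc d c)^[n] z)⁻¹) (ball α r) := by
    apply DifferentiableOn.diffContOnCl
    rw [closure_ball α hr0.ne']
    intro z hz
    exact ((fc_diff d c n z).inv (hnz z hz)).differentiableWithinAt
  have h2 : ‖((fc d c)^[n] α)⁻¹‖ ≤ R'⁻¹ := by
    apply Complex.norm_le_of_forall_mem_frontier_norm_le isBounded_ball hd1 _
      (subset_closure (mem_ball_self hr0))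
    intro z hz
    rw [frontier_ball α hr0.ne'] at hz
    rw [norm_inv]
    apply inv_anti₀ hR'0
    have h3 := iter_ge hd hA1 hA2 z n
    have h4 : m ≤ green d c z := hmin hz
    have h5 : (d : ℝ) ^ n * m ≤ (d : ℝ) ^ n * green d c z := by gcongr
    linarith
  rw [norm_inv] at h2
  have h3 : ‖(fc d c)^[n] α‖ ≤ R := hR _ ((mem_KK_iter hd c α n).mpr hα)
  have h4 : 0 < ‖(fc d c)^[n] α‖ := norm_pos_iff.mpr (hne n)
  have h5 := (inv_le_inv₀ h4 hR'0).mp h2
  linarith

/-- a punctured disc is connected -/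
theorem punctured (α : ℂ) (ε : ℝ) : IsPreconnected (ball α ε \ {α}) := by
  have h1 : ball α ε \ {α} = (fun p : ℝ × ℝ => α + p.1 * Complex.exp (p.2 * I)) ''
      (Ioo 0 ε ×ˢ univ) := by
    ext z
    constructor
    · rintro ⟨h1, h2⟩
      rw [mem_singleton_iff] at h2
      rw [mem_ball_iff_norm] at h1
      refine ⟨(‖z - α‖, arg (z - α)), ⟨⟨?_, h1⟩, mem_univ _⟩, ?_⟩
      · exact norm_pos_iff.mpr (sub_ne_zero.mpr h2)
      · simp only [norm_mul_exp_arg_mul_I]
        ring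
    · rintro ⟨⟨x, θ⟩, ⟨⟨hx0, hx1⟩, _⟩, rfl⟩
      simp only at hx0 hx1
      refine ⟨?_, ?_⟩
      · rw [mem_ball_iff_norm, add_sub_cancel_left, norm_mul, Complex.norm_exp_ofReal_mul_I,
          mul_one, Complex.norm_real, Real.norm_eq_abs, abs_of_pos hx0]
        exact hx1
      · rw [mem_singleton_iff, add_eq_left, mul_eq_zero, not_or]
        refine ⟨?_, Complex.exp_ne_zero _⟩
        exact_mod_cast hx0.ne'
  rw [h1]
  apply IsPreconnected.image
  · exact isPreconnected_Ioo.prod isPreconnected_univ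
  · apply Continuous.continuousOn
    fun_prop

/-- the boundary points of the filled Julia set accumulate -/
theorem acc_bj {d : ℕ} (hd : 2 ≤ d) {c α : ℂ} (hc : c ∈ multibrotSet d) (hα : α ∈ bj d c)
    (hne : ∀ j, (fc d c)^[j] α ≠ 0) {ε : ℝ} (hε : 0 < ε) :
    ∃ b ∈ bj d c, b ≠ α ∧ ‖b - α‖ < ε := by
  obtain ⟨k, hkK, hkα, hkε⟩ := acc_K hd hc hα.1 hne hε
  obtain ⟨e, he, heε⟩ := Metric.mem_closure_iff.mp hα.2 ε hε
  have heα : e ≠ α := by
    rintro rfl
    exact he hα.1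
  by_contra hcon
  push Not at hcon
  have hcl := (isCompact_KK hd c).isClosed
  have hcov : ball α ε \ {α} ⊆ interior (KK d c) ∪ (KK d c)ᶜ := by
    rintro x ⟨hx1, hx2⟩
    rw [mem_ball_iff_norm] at hx1
    by_cases hxK : x ∈ KK d c
    · left
      by_contra hxi
      have hxb : x ∈ bj d c := ⟨hxK, by rwa [closure_compl, mem_compl_iff]⟩
      have := hcon x hxb hx2
      linarith
    · right
      exact hxK
  have hk : k ∈ ball α ε \ {α} := ⟨by rwa [mem_ball_iff_norm], hkα⟩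
  have he' : e ∈ ball α ε \ {α} := ⟨by rwa [mem_ball, dist_comm], heα⟩
  obtain ⟨x, -, hx1, hx2⟩ := punctured α ε _ _ isOpen_interior hcl.isOpen_compl hcov
    ⟨k, hk, (hcov hk).resolve_right (fun h => h hkK)⟩ ⟨e, he', he⟩
  exact hx2 (interior_subset hx1)

/-- local backward invariance -/
theorem back_bj {d : ℕ} (hd : 2 ≤ d) {c α : ℂ} {p : ℕ} (hl : deriv (fc d c)^[p] α ≠ 0) :
    ∀ᶠ y in 𝓝 α, (fc d c)^[p] y ∈ bj d c → y ∈ bj d c := by
  have hF := fc_diff d c p
  have h1 : ∀ᶠ y in 𝓝 α, deriv (fc d c)^[p] y ≠ 0 := by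
    have h2 : Continuous (deriv (fc d c)^[p]) :=
      (hF.contDiff (n := 1)).continuous_deriv le_rfl
    exact h2.continuousAt.eventually_ne hl
  filter_upwards [h1] with y hy hmem
  refine ⟨(mem_KK_iter hd c y p).mp hmem.1, ?_⟩
  by_contra hcon
  rw [closure_compl, mem_compl_iff, not_not] at hcon
  have h3 : KK d c ∈ 𝓝 y := mem_interior_iff_mem_nhds.mp hcon
  have h4 : HasStrictDerivAt (fc d c)^[p] (deriv (fc d c)^[p] y) y :=
    ((hF.contDiff (n := 1)).contDiffAt.hasStrictDerivAt one_ne_zero)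
  have h5 := h4.map_nhds_eq hy
  have h6 : KK d c ∈ 𝓝 ((fc d c)^[p] y) := by
    rw [← h5, mem_map]
    filter_upwards [h3] with u hu
    exact (mem_KK_iter hd c u p).mpr hu
  have h7 := hmem.2
  rw [closure_compl, mem_compl_iff] at h7
  exact h7 (mem_interior_iff_mem_nhds.mpr h6)

end Pool.Agent.H46TP
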