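import Mathlib
import Pool.Agent.H46TP.Per
import Pool.Agent.H46TP.Dens

/-!
# The derivatives of the multipliers of repelling cycles
-/

set_option autoImplicit false

open Complex Topology Filter Metric MeasureTheory Set N62a1eb23

namespace Pool.Agent.H46TP

open Pool.Agent.H713R2 Pool.Agent.H712R2 Pool.Agent.H713R2.AR Pool.Agent.H548R3.MB
open Pool.Agent.H46MB (mem_KK_iff not_mem_KK_iff mem_M_iff isCompact_KK green_iter exists_A Hyp)

theorem hasDerivAt_iter (d : ℕ) (a z : ℂ) (p : ℕ) :
    HasDerivAt (fc d a)^[p] (∏ j ∈ Finset.range p, (d * ((fc d a)^[j] z) ^ (d - 1))) z := by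
  induction p with
  | zero => simpa using hasDerivAt_id z
  | succ p ih =>
    rw [Function.iterate_succ', Finset.prod_range_succ, mul_comm]
    have h1 : HasDerivAt (fc d a) (d * ((fc d a)^[p] z) ^ (d - 1)) ((fc d a)^[p] z) := by
      have := (hasDerivAt_pow d ((fc d a)^[p] z)).add_const a
      exact this
    exact h1.comp z ih

section
variable {d : ℕ} {c : ℂ} {α : ℂ → ℂ}

theorem orbit_diff (hα : DifferentiableAt ℂ α c) (j : ℕ) :
    DifferentiableAt ℂ (fun a => (fc d a)^[j] (α a)) c := by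
  induction j with
  | zero => simpa using hα
  | succ j ih =>
    have h1 : (fun a => (fc d a)^[j + 1] (α a)) = fun a => ((fc d a)^[j] (α a)) ^ d + a := by
      funext a
      rw [Function.iterate_succ_apply']
      rfl
    rw [h1]
    exact (ih.fun_pow d).add differentiableAt_id

/-- the derivatives of the points of the cycle -/
noncomputable def uu (d : ℕ) (c : ℂ) (α : ℂ → ℂ) (j : ℕ) : ℂ :=
  deriv (fun a => (fc d a)^[j] (α a)) c

theorem uu_succ (hα : DifferentiableAt ℂ α c) (j : ℕ) :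
    uu d c α (j + 1) = d * ((fc d c)^[j] (α c)) ^ (d - 1) * uu d c α j + 1 := by
  unfold uu
  have h1 : (fun a => (fc d a)^[j + 1] (α a)) = fun a => ((fc d a)^[j] (α a)) ^ d + a := by
    funext a
    rw [Function.iterate_succ_apply']
    rfl
  rw [h1]
  exact (((orbit_diff (d := d) hα j).hasDerivAt.fun_pow d).add (hasDerivAt_id c)).deriv

theorem mult_deriv (hα : DifferentiableAt ℂ α c) (hd : 2 ≤ d)
    (hne : ∀ j, (fc d c)^[j] (α c) ≠ 0) (p : ℕ) :
    HasDerivAt (fun a => ∏ j ∈ Finset.range p, (d * ((fc d a)^[j] (α a)) ^ (d - 1)))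
      ((∏ j ∈ Finset.range p, (d * ((fc d c)^[j] (α c)) ^ (d - 1))) *
        ∑ j ∈ Finset.range p, ((d : ℂ) - 1) * (uu d c α j / (fc d c)^[j] (α c))) c := by
  induction p with
  | zero => simpa using hasDerivAt_const c (1 : ℂ)
  | succ p ih =>
    have h1 : (fun a => ∏ j ∈ Finset.range (p + 1), (d * ((fc d a)^[j] (α a)) ^ (d - 1))) =
        fun a => (∏ j ∈ Finset.range p, (d * ((fc d a)^[j] (α a)) ^ (d - 1))) *
          (d * ((fc d a)^[p] (α a)) ^ (d - 1)) := by
      funext a
      rw [Finset.prod_range_succ]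
    rw [h1, Finset.prod_range_succ, Finset.sum_range_succ]
    have h2 := ((orbit_diff (d := d) hα p).hasDerivAt.fun_pow (d - 1)).const_mul (d : ℂ)
    refine (ih.mul h2).congr_deriv ?_
    have hx := hne p
    have hu : deriv (fun a => (fc d a)^[p] (α a)) c = uu d c α p := rfl
    rw [hu]
    set x := (fc d c)^[p] (α c) with hxdef
    obtain ⟨k, rfl⟩ : ∃ k, d = k + 2 := ⟨d - 2, by omega⟩
    have e3 : k + 2 - 1 = k + 1 := by omega
    have e4 : k + 1 - 1 = k := by omega
    rw [e3, e4]
    push_cast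
    field_simp
    ring

/-- a vanishing cocycle -/
theorem cocycle_zero {p : ℕ} {m w u : ℕ → ℂ} {g : ℂ} (hw : ∀ j, w (j + 1) = m j * w j + g)
    (hu : ∀ j, u (j + 1) = m j * u j + 1) (hwp : w p = w 0) (hup : u p = u 0)
    (hl : ∏ j ∈ Finset.range p, m j ≠ 1) (j : ℕ) : w j = g * u j := by
  have h1 : ∀ j, w j - g * u j = (∏ i ∈ Finset.range j, m i) * (w 0 - g * u 0) := by
    intro j
    induction j with
    | zero => simp
    | succ j ih =>
      rw [hw, hu, Finset.prod_range_succ]
      linear_combination (m j) * ih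
  have h2 := h1 p
  rw [hwp, hup] at h2
  have h3 : (1 - ∏ j ∈ Finset.range p, m j) * (w 0 - g * u 0) = 0 := by
    linear_combination h2
  rcases mul_eq_zero.mp h3 with h | h
  · exfalso
    apply hl
    linear_combination -h
  · have := h1 j
    rw [h, mul_zero] at this
    linear_combination this

theorem limit_aux {x θ l : ℝ}
    (h : ∀ t : ℝ, 0 < t → t < 1 → (1 - t) * x ≤ (1 + t) * (2 * (θ + t)) * l) :
    x ≤ 2 * θ * l := by
  have h1 : Tendsto (fun t : ℝ => (1 - t) * x) (𝓝[>] 0) (𝓝 x) := by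
    have : Tendsto (fun t : ℝ => (1 - t) * x) (𝓝 0) (𝓝 ((1 - 0) * x)) :=
      Continuous.tendsto (by fun_prop) 0
    simp only [sub_zero, one_mul] at this
    exact this.mono_left nhdsWithin_le_nhds
  have h2 : Tendsto (fun t : ℝ => (1 + t) * (2 * (θ + t)) * l) (𝓝[>] 0) (𝓝 (2 * θ * l)) := by
    have : Tendsto (fun t : ℝ => (1 + t) * (2 * (θ + t)) * l) (𝓝 0)
        (𝓝 ((1 + 0) * (2 * (θ + 0)) * l)) :=
      Continuous.tendsto (by fun_prop) 0
    simp only [add_zero, one_mul] at this
    exact this.mono_left nhdsWithin_le_nhds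
  apply le_of_tendsto_of_tendsto h1 h2
  filter_upwards [ev01] with t ht using h t ht.1 ht.2

/-- **The derivatives of the multipliers, for holomorphic discs in the Multibrot set.** -/
theorem mult_disc (hd : 2 ≤ d) {γ : ℂ → ℂ} (hγ : DifferentiableOn ℂ γ (ball 0 1))
    (hγM : ∀ t ∈ ball (0 : ℂ) 1, γ t ∈ multibrotSet d) (hc : γ 0 = c) {p : ℕ} (hp : 0 < p)
    (hα : DifferentiableAt ℂ α c) (hper : ∀ᶠ a in 𝓝 c, (fc d a)^[p] (α a) = α a)
    (hl : 1 < ‖deriv (fc d c)^[p] (α c)‖) :
    ‖deriv (fun a => deriv (fc d a)^[p] (α a)) c‖ * ‖deriv γ 0‖ ≤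
      2 * upDens (KK d c) (α c) *
        (‖deriv (fc d c)^[p] (α c)‖ * Real.log ‖deriv (fc d c)^[p] (α c)‖) := by
  have hpi := Real.pi_pos
  have hcM : c ∈ multibrotSet d := by rw [← hc]; exact hγM 0 (mem_ball_self one_pos)
  have hpc : (fc d c)^[p] (α c) = α c := hper.self_of_nhds
  set a := α c with ha
  set lam := deriv (fc d c)^[p] a with hlam
  set K := KK d c with hK
  have hlam0 : lam ≠ 0 := by
    intro h
    rw [h, norm_zero] at hl
    linarith
  have hprod : lam = ∏ j ∈ Finset.range p, (d * ((fc d c)^[j] a) ^ (d - 1)) :=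
    (hasDerivAt_iter d c a p).deriv
  have hne' : ∀ j < p, (fc d c)^[j] a ≠ 0 := by
    intro j hj h0
    apply hlam0
    rw [hprod]
    apply Finset.prod_eq_zero (Finset.mem_range.mpr hj)
    rw [h0, zero_pow (by omega), mul_zero]
  have hne : ∀ j, (fc d c)^[j] a ≠ 0 := by
    intro j
    have h1 : (fc d c)^[j % p] a = (fc d c)^[j] a :=
      Function.IsPeriodicPt.iterate_mod_apply hpc j
    rw [← h1]
    exact hne' _ (Nat.mod_lt _ hp)
  have haB : a ∈ bj d c := per_bj hd hp hpc hl
  have hl1 : lam ≠ 1 := by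
    intro h
    rw [h, norm_one] at hl
    linarith
  -- the derivative of the multiplier
  set S : ℂ := ∑ j ∈ Finset.range p, ((d : ℂ) - 1) * (uu d c α j / (fc d c)^[j] a) with hS
  have hder : deriv (fun b => deriv (fc d b)^[p] (α b)) c = lam * S := by
    have h1 : (fun b => deriv (fc d b)^[p] (α b)) =
        fun b => ∏ j ∈ Finset.range p, (d * ((fc d b)^[j] (α b)) ^ (d - 1)) := by
      funext b
      exact (hasDerivAt_iter d b (α b) p).deriv
    rw [h1, (mult_deriv hα hd hne p).deriv, hprod]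
  have hup : uu d c α p = uu d c α 0 := by
    unfold uu
    apply Filter.EventuallyEq.deriv_eq
    filter_upwards [hper] with b hb
    rw [hb]
    rfl
  have key : ∀ ρ s θ : ℝ, 0 < ρ → ρ < 1 → 1 < s → upDens K a < θ →
      ρ * ‖deriv γ 0 * S‖ ≤ s * (2 * θ) * Real.log ‖lam‖ := by
    intro ρ s θ hρ hρ1 hs hθ
    have hθ0 : 0 < θ := (upDens_nonneg K a).trans_lt hθ
    obtain ⟨W, hW1, hW2⟩ := exists_W hd hγ hγM hρ hρ1
    rw [hc] at hW1 hW2
    obtain ⟨C, hC0, hC⟩ := TT_dens (isCompact_KK hd c) a hs hθ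
    obtain ⟨C', hC'0, hC'⟩ := steps hd hW1 haB hne p
    have hwj : ∀ j, W ((fc d c)^[j] a) = deriv γ 0 * uu d c α j := by
      have hB : ∀ k, (fc d c)^[k] a ∈ bj d c := by
        intro k
        induction k with
        | zero => exact haB
        | succ k ih =>
          rw [Function.iterate_succ_apply']
          exact (hW1 _ ih).1
      apply cocycle_zero (p := p) (m := fun j => d * ((fc d c)^[j] a) ^ (d - 1))
      · intro j
        rw [Function.iterate_succ_apply']
        exact (hW1 _ (hB j)).2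
      · intro j
        exact uu_succ hα j
      · rw [hpc]; rfl
      · exact hup
      · rw [← hprod]; exact hl1
    have hΛ : ∑ i ∈ Finset.range p, ((d : ℂ) - 1) * (W ((fc d c)^[i] a) / (fc d c)^[i] a) =
        deriv γ 0 * S := by
      rw [hS, Finset.mul_sum]
      apply Finset.sum_congr rfl
      intro i _
      rw [hwj]
      ring
    have hF : HasStrictDerivAt (fc d c)^[p] lam a :=
      (((fc_diff d c p).contDiff (n := 1)).contDiffAt.hasStrictDerivAt one_ne_zero)
    have hg := growth (F := (fc d c)^[p]) (q := qq d c W a 0) (B := bj d c) (Λ := deriv γ 0 * S)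
      (C := C') (A₀ := s * (2 * θ) / ρ) (B₀ := C / (Real.pi * ρ)) hF hpc hl
      (fun ε hε => acc_bj hd hcM haB hne hε) (back_bj hd hlam0) hC'0 (by positivity)
      (by positivity) ?_ ?_
    · have h1 : ρ * ‖deriv γ 0 * S‖ ≤ ρ * (s * (2 * θ) / ρ * Real.log ‖lam‖) := by gcongr
      refine h1.trans (le_of_eq ?_)
      field_simp
    · filter_upwards [hC'] with y hy hyB hya
      have h1 := (hy hyB hya).2
      rw [hΛ] at h1
      have h2 : qq d c W a p ((fc d c)^[p] y) = qq d c W a 0 ((fc d c)^[p] y) := by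
        unfold qq
        rw [hpc]
        rfl
      rwa [h2] at h1
    · filter_upwards [hC] with y hy hyB hya
      have h1 := hW2 a haB y hyB hya.symm
      have h2 := hy hya
      have hya0 : 0 < ‖y - a‖ := norm_pos_iff.mpr (sub_ne_zero.mpr hya)
      have h3 : qq d c W a 0 y = (W y - W a) / (y - a) := rfl
      rw [h3, norm_div, div_le_iff₀ hya0, norm_sub_rev (W y)]
      rw [norm_sub_rev a y] at h1
      have h4 : Real.pi * ρ * ‖W a - W y‖ ≤
          ‖y - a‖ * (s * (2 * Real.pi * θ) * Real.log (1 / ‖y - a‖) + C) := by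
        refine h1.trans ?_
        gcongr
      have h5 : ‖W a - W y‖ ≤
          ‖y - a‖ * (s * (2 * Real.pi * θ) * Real.log (1 / ‖y - a‖) + C) / (Real.pi * ρ) := by
        rw [le_div_iff₀ (by positivity)]
        linarith
      refine h5.trans (le_of_eq ?_)
      field_simp
  have hfin : ‖deriv γ 0 * S‖ ≤ 2 * upDens K a * Real.log ‖lam‖ := by
    apply limit_aux
    intro t ht ht1
    exact key (1 - t) (1 + t) (upDens K a + t) (by linarith) (by linarith) (by linarith)
      (by linarith)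
  rw [hder, norm_mul]
  rw [norm_mul] at hfin
  have h0 := norm_nonneg lam
  calc ‖lam‖ * ‖S‖ * ‖deriv γ 0‖ = ‖lam‖ * (‖deriv γ 0‖ * ‖S‖) := by ring
    _ ≤ ‖lam‖ * (2 * upDens K a * Real.log ‖lam‖) := by gcongr
    _ = _ := by ring

/-- **The distance to hyperbolicity against the derivatives of the multipliers.** -/
theorem mult_dist (hd : 2 ≤ d) (hcM : c ∈ multibrotSet d) {p : ℕ} (hp : 0 < p)
    (hα : DifferentiableAt ℂ α c) (hper : ∀ᶠ a in 𝓝 c, (fc d a)^[p] (α a) = α a)
    (hl : 1 < ‖deriv (fc d c)^[p] (α c)‖) :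
    ‖deriv (fun a => deriv (fc d a)^[p] (α a)) c‖ * infDist c (Hyp d) ≤
      2 * upDens (KK d c) (α c) *
        (‖deriv (fc d c)^[p] (α c)‖ * Real.log ‖deriv (fc d c)^[p] (α c)‖) := by
  set r : ℝ := infDist c (Hyp d) with hr
  rcases (infDist_nonneg (x := c) (s := Hyp d)).eq_or_lt with h0 | h0
  · rw [← hr] at h0
    rw [← h0, mul_zero]
    have h1 := upDens_nonneg (KK d c) (α c)
    have h2 := Real.log_nonneg hl.le
    positivity
  rw [← hr] at h0
  have hno : ∀ c' ∈ ball c r, ¬ ∃ m z, IsAttractingCycle (fun z : ℂ => z ^ d + c') m z := by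
    intro c' hc' h
    have h1 : r ≤ dist c c' := infDist_le_dist_of_mem (s := Hyp d) h
    rw [mem_ball, dist_comm] at hc'
    linarith
  have hsub := ball_subset hd h0 hcM hno
  have hder : deriv (fun t : ℂ => c + r * t) 0 = r := by
    have h4 : HasDerivAt (fun t : ℂ => c + (r : ℂ) * t) r 0 := by
      simpa using ((hasDerivAt_id (0 : ℂ)).const_mul (r : ℂ)).const_add c
    exact h4.deriv
  have hball : ∀ t ∈ ball (0 : ℂ) 1, c + r * t ∈ ball c r := by
    intro t ht
    rw [mem_ball_zero_iff] at ht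
    rw [mem_ball_iff_norm, add_sub_cancel_left, norm_mul, Complex.norm_real, Real.norm_eq_abs,
      abs_of_pos h0]
    nlinarith
  have h1 := mult_disc hd (γ := fun t : ℂ => c + r * t) (by fun_prop)
    (fun t ht => hsub (hball t ht)) (by simp) hp hα hper hl
  rwa [hder, Complex.norm_real, Real.norm_eq_abs, abs_of_pos h0] at h1

end

end Pool.Agent.H46TP
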